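import Mathlib

/-!
# Plane 4-graphs, orthogonal drawings and unbent collections
-/

set_option autoImplicit false

namespace Pool.Agent.N371.UB

open scoped Topology

/-- A connected graph of maximum degree at most four with a combinatorial embedding: for every
vertex the counterclockwise cyclic order of its neighbours (`next v w` is the neighbour of `v` that
follows its neighbour `w`), and the external face, given as the face to the left of the edge `outer`
(directed from `outer.fst` to `outer.snd`). -/
structure PlaneGraph (V : Type) where
  graph : SimpleGraph V
  connected : graph.Connected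
  degree_le : ∀ v, (graph.neighborSet v).encard ≤ 4
  next : V → V → V
  next_adj : ∀ v w, graph.Adj v w → graph.Adj v (next v w)
  next_cyc : ∀ v w w', graph.Adj v w → graph.Adj v w' → ∃ n : ℕ, (next v)^[n] w = w'
  outer : graph.Dart

variable {V : Type}

/-- The dart that follows the dart `d` in the counterclockwise order around its start. -/
def PlaneGraph.nextDart (G : PlaneGraph V) (d : G.graph.Dart) : G.graph.Dart :=
  ⟨(d.fst, G.next d.fst d.snd), G.next_adj _ _ d.adj⟩

/-- The vector `u` turned left by a quarter turn. -/
def leftNormal (u : ℝ × ℝ) : ℝ × ℝ := (-u.2, u.1)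

open Classical in
/-- The direction of a nonzero axis-parallel vector: `0` east, `1` north, `2` west, `3` south. -/
noncomputable def direction (u : ℝ × ℝ) : ZMod 4 :=
  if 0 < u.1 then 0 else if 0 < u.2 then 1 else if u.1 < 0 then 2 else 3

/-- A crossing-free orthogonal drawing of `G` that adheres to the embedding of `G`. The drawing
of the edge `d`, traversed from `d.fst` to `d.snd`, is the polygonal chain through the points of
the list `chain d`. -/
structure Drawing (G : PlaneGraph V) where
  /-- the point of a vertex -/
  pos : V → ℝ × ℝ
  /-- start point, bends and end point of an edge -/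
  chain : G.graph.Dart → List (ℝ × ℝ)
  chain_symm : ∀ d, chain d.symm = (chain d).reverse
  chain_length : ∀ d, 2 ≤ (chain d).length
  chain_start : ∀ d, (chain d).getD 0 0 = pos d.fst
  /-- every segment is horizontal or vertical (and not a point) -/
  axis : ∀ d i, i + 1 < (chain d).length →
    ((chain d).getD i 0).1 = ((chain d).getD (i + 1) 0).1 ∧
        ((chain d).getD i 0).2 ≠ ((chain d).getD (i + 1) 0).2 ∨
      ((chain d).getD i 0).1 ≠ ((chain d).getD (i + 1) 0).1 ∧
        ((chain d).getD i 0).2 = ((chain d).getD (i + 1) 0).2
  /-- the interior points of the list are bends: there the edge changes between horizontal and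
  vertical -/
  bend : ∀ d i, i + 2 < (chain d).length →
    (((chain d).getD i 0).1 = ((chain d).getD (i + 1) 0).1 ↔
      ((chain d).getD (i + 1) 0).2 = ((chain d).getD (i + 2) 0).2)
  /-- the chain of an edge is simple -/
  simple : ∀ d i j, i + 1 < j → j + 1 < (chain d).length →
    Disjoint (segment ℝ ((chain d).getD i 0) ((chain d).getD (i + 1) 0))
      (segment ℝ ((chain d).getD j 0) ((chain d).getD (j + 1) 0))
  pos_inj : Function.Injective pos
  /-- no edge passes through a vertex other than its ends -/
  avoid : ∀ d i w, i + 1 < (chain d).length →
    pos w ∈ segment ℝ ((chain d).getD i 0) ((chain d).getD (i + 1) 0) → w = d.fst ∨ w = d.snd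
  /-- two different edges meet only in common ends -/
  cross : ∀ d e i j, e ≠ d → e ≠ d.symm → i + 1 < (chain d).length → j + 1 < (chain e).length →
    ∀ z ∈ segment ℝ ((chain d).getD i 0) ((chain d).getD (i + 1) 0),
      z ∈ segment ℝ ((chain e).getD j 0) ((chain e).getD (j + 1) 0) →
        ∃ w, w ∈ d.edge ∧ w ∈ e.edge ∧ z = pos w
  /-- the counterclockwise order of the edges around a vertex is the given one: no edge at
  `d.fst` leaves in a direction strictly between those of `d` and of the edge that follows `d` -/
  rotation : ∀ d e : G.graph.Dart, e.fst = d.fst → e ≠ d →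
    (direction ((chain (G.nextDart d)).getD 1 0 - pos d.fst) -
        direction ((chain d).getD 1 0 - pos d.fst)).val ≤
      (direction ((chain e).getD 1 0 - pos d.fst) -
        direction ((chain d).getD 1 0 - pos d.fst)).val
  /-- the face to the left of the edge `outer` is the unbounded one: the points close to the
  midpoint of its first segment, on its left, lie in unbounded components of the complement of
  the drawing -/
  external : ∀ᶠ t in 𝓝[>] (0 : ℝ), ¬ Bornology.IsBounded (connectedComponentIn
    (Set.range pos ∪ ⋃ (d) (i) (_ : i + 1 < (chain d).length),
      segment ℝ ((chain d).getD i 0) ((chain d).getD (i + 1) 0))ᶜ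
    (midpoint ℝ (pos G.outer.fst) ((chain G.outer).getD 1 0) +
      t • leftNormal ((chain G.outer).getD 1 0 - pos G.outer.fst)))

/-- The number of bends of an edge in a drawing. -/
def Drawing.bends {G : PlaneGraph V} (D : Drawing G) (d : G.graph.Dart) : ℕ :=
  (D.chain d).length - 2

open Classical in
/-- The number of bends of a drawing (every edge is counted twice in the sum, once for each of its
two directions). -/
noncomputable def Drawing.totalBends [Fintype V] {G : PlaneGraph V} (D : Drawing G) : ℕ :=
  (∑ d, D.bends d) / 2

/-- A finite set of drawings is an unbent collection if every edge is drawn without bends in at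
least one of them. -/
def IsUnbentCollection {G : PlaneGraph V} (C : Finset (Drawing G)) : Prop :=
  ∀ d : G.graph.Dart, ∃ D ∈ C, D.bends d = 0

/-- The total bend number of a collection. -/
noncomputable def collectionBends [Fintype V] {G : PlaneGraph V} (C : Finset (Drawing G)) : ℕ :=
  ∑ D ∈ C, D.totalBends

/-- `un(G)`: the minimum size of an unbent collection. -/
noncomputable def un (G : PlaneGraph V) : ℕ :=
  sInf {k | ∃ C : Finset (Drawing G), IsUnbentCollection C ∧ C.card = k}

/-- `tbn(G)`: the minimum total bend number of an unbent collection. -/
noncomputable def tbn [Fintype V] (G : PlaneGraph V) : ℕ :=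
  sInf {b | ∃ C : Finset (Drawing G), IsUnbentCollection C ∧ collectionBends C = b}

end Pool.Agent.N371.UB
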