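import Pool.Agent.N371.UB.Rect
import Pool.Agent.N371.UB.Defs

/-!
# Facts about one chain
-/

set_option autoImplicit false

namespace Pool.Agent.N371.UB

variable {V : Type} {G : PlaneGraph V} (D : Drawing G)

/-- The points of a chain. -/
noncomputable def pt (d : G.graph.Dart) (i : ℕ) : ℝ × ℝ := (D.chain d).getD i 0

lemma length_eq (d : G.graph.Dart) : (D.chain d).length = D.bends d + 2 := by
  have := D.chain_length d
  unfold Drawing.bends
  omega

lemma pt_zero (d : G.graph.Dart) : pt D d 0 = D.pos d.fst := D.chain_start d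

lemma bends_symm (d : G.graph.Dart) : D.bends d.symm = D.bends d := by
  unfold Drawing.bends
  rw [D.chain_symm, List.length_reverse]

lemma pt_symm (d : G.graph.Dart) (i : ℕ) (hi : i ≤ D.bends d + 1) :
    pt D d.symm i = pt D d (D.bends d + 1 - i) := by
  unfold pt
  rw [D.chain_symm]
  have hl := length_eq D d
  have h1 : i < (D.chain d).reverse.length := by
    rw [List.length_reverse]; omega
  have h2 : D.bends d + 1 - i < (D.chain d).length := by omega
  rw [List.getD_eq_getElem _ _ h1, List.getD_eq_getElem _ _ h2, List.getElem_reverse]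
  congr 1
  omega

lemma pt_last (d : G.graph.Dart) : pt D d (D.bends d + 1) = D.pos d.snd := by
  have h := pt_symm D d 0 (by omega)
  rw [pt_zero] at h
  simpa using h.symm

lemma pt_axis (d : G.graph.Dart) (i : ℕ) (hi : i ≤ D.bends d) :
    (pt D d i).1 = (pt D d (i + 1)).1 ∧ (pt D d i).2 ≠ (pt D d (i + 1)).2 ∨
      (pt D d i).1 ≠ (pt D d (i + 1)).1 ∧ (pt D d i).2 = (pt D d (i + 1)).2 :=
  D.axis d i (by rw [length_eq]; omega)

lemma pt_bend (d : G.graph.Dart) (i : ℕ) (hi : i < D.bends d) :
    ((pt D d i).1 = (pt D d (i + 1)).1 ↔ (pt D d (i + 1)).2 = (pt D d (i + 2)).2) :=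
  D.bend d i (by rw [length_eq]; omega)

lemma pt_simple (d : G.graph.Dart) (i j : ℕ) (hij : i + 1 < j) (hj : j ≤ D.bends d) :
    Disjoint (segment ℝ (pt D d i) (pt D d (i + 1))) (segment ℝ (pt D d j) (pt D d (j + 1))) :=
  D.simple d i j hij (by rw [length_eq]; omega)

lemma pt_ne (d : G.graph.Dart) (i : ℕ) (hi : i ≤ D.bends d) : pt D d i ≠ pt D d (i + 1) := by
  intro h
  rcases pt_axis D d i hi with h' | h'
  · exact h'.2 (by rw [← h])
  · exact h'.1 (by rw [← h])

/-- points of an axis-parallel segment -/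
lemma mem_seg_fst {a b z : ℝ × ℝ} (hz : z ∈ segment ℝ a b) (h : a.1 = b.1) : z.1 = a.1 := by
  rw [segment_eq_image] at hz
  obtain ⟨t, -, rfl⟩ := hz
  simp only [Prod.fst_add, Prod.smul_fst, smul_eq_mul, ← h]
  ring

lemma mem_seg_snd {a b z : ℝ × ℝ} (hz : z ∈ segment ℝ a b) (h : a.2 = b.2) : z.2 = a.2 := by
  rw [segment_eq_image] at hz
  obtain ⟨t, -, rfl⟩ := hz
  simp only [Prod.snd_add, Prod.smul_snd, smul_eq_mul, ← h]
  ring

/-- consecutive sides of a chain meet only in the common corner -/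
lemma pt_adj (d : G.graph.Dart) (i : ℕ) (hi : i < D.bends d) (z : ℝ × ℝ)
    (h1 : z ∈ segment ℝ (pt D d i) (pt D d (i + 1)))
    (h2 : z ∈ segment ℝ (pt D d (i + 1)) (pt D d (i + 2))) : z = pt D d (i + 1) := by
  have hb := pt_bend D d i hi
  have ha := pt_axis D d i hi.le
  have ha' := pt_axis D d (i + 1) hi
  rcases ha with ha | ha
  · have h3 := hb.1 ha.1
    have e1 := mem_seg_fst h1 ha.1
    have e2 := mem_seg_snd h2 h3
    exact Prod.ext (by rw [e1, ha.1]) e2
  · have h3 : (pt D d (i + 1)).1 = (pt D d (i + 1 + 1)).1 := by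
      rcases ha' with h | h
      · exact h.1
      · exact absurd (hb.2 h.2) ha.1
    have e1 := mem_seg_snd h1 ha.2
    have e2 := mem_seg_fst h2 h3
    exact Prod.ext e2 (by rw [e1, ha.2])

/-- the end of a chain lies on its last side only -/
lemma last_mem (d : G.graph.Dart) (i : ℕ) (hi : i ≤ D.bends d)
    (h : D.pos d.snd ∈ segment ℝ (pt D d i) (pt D d (i + 1))) : i = D.bends d := by
  rw [← pt_last] at h
  by_contra hne
  rcases Nat.lt_or_ge (i + 1) (D.bends d) with h1 | h1
  · exact Set.disjoint_left.1 (pt_simple D d i (D.bends d) h1 le_rfl) h (right_mem_segment ℝ _ _)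
  · have hb : D.bends d = i + 1 := by omega
    rw [hb] at h
    have := pt_adj D d i (by omega) _ h (right_mem_segment ℝ _ _)
    exact pt_ne D d (i + 1) (by omega) this.symm

/-- the start of a chain lies on its first side only -/
lemma first_mem (d : G.graph.Dart) (i : ℕ) (hi : i ≤ D.bends d)
    (h : D.pos d.fst ∈ segment ℝ (pt D d i) (pt D d (i + 1))) : i = 0 := by
  rw [← pt_zero] at h
  by_contra hne
  rcases Nat.lt_or_ge 1 i with h1 | h1
  · exact Set.disjoint_left.1 (pt_simple D d 0 i (by omega) hi) (left_mem_segment ℝ _ _) h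
  · have hb : i = 1 := by omega
    subst hb
    have := pt_adj D d 0 (by omega) _ (left_mem_segment ℝ _ _) h
    exact pt_ne D d 0 (by omega) this

lemma turn_abs_le (u w : ℝ × ℝ) : |turn u w| ≤ 1 := by
  unfold turn
  cases SignType.sign (u.1 * w.2 - u.2 * w.1) <;> simp

lemma turn_neg_neg (u w : ℝ × ℝ) : turn (-u) (-w) = turn u w := by
  unfold turn
  congr 2
  simp

lemma turn_swap (u w : ℝ × ℝ) : turn w u = - turn u w := by
  unfold turn
  rw [show w.1 * u.2 - w.2 * u.1 = -(u.1 * w.2 - u.2 * w.1) by ring, Left.sign_neg]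
  simp

/-- The total turning along a chain. -/
noncomputable def tt (d : G.graph.Dart) : ℤ :=
  ∑ i ∈ Finset.range (D.bends d),
    turn (pt D d (i + 1) - pt D d i) (pt D d (i + 2) - pt D d (i + 1))

lemma tt_abs_le (d : G.graph.Dart) : |tt D d| ≤ D.bends d := by
  unfold tt
  refine (Finset.abs_sum_le_sum_abs _ _).trans ?_
  refine (Finset.sum_le_sum fun i _ => turn_abs_le _ _).trans ?_
  simp

lemma tt_symm (d : G.graph.Dart) : tt D d.symm = - tt D d := by
  unfold tt
  rw [bends_symm, ← Finset.sum_range_reflect, ← Finset.sum_neg_distrib]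
  refine Finset.sum_congr rfl fun i hi => ?_
  rw [Finset.mem_range] at hi
  rw [pt_symm D d _ (by omega), pt_symm D d _ (by omega), pt_symm D d _ (by omega)]
  have e1 : D.bends d + 1 - (D.bends d - 1 - i + 1) = i + 1 := by omega
  have e2 : D.bends d + 1 - (D.bends d - 1 - i) = i + 2 := by omega
  have e3 : D.bends d + 1 - (D.bends d - 1 - i + 2) = i := by omega
  rw [e1, e2, e3, ← turn_neg_neg, neg_sub, neg_sub, turn_swap]

end Pool.Agent.N371.UB
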