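import Mathlib

/-!
# The cyclic successor on a sigma type
-/

set_option autoImplicit false

namespace Pool.Agent.N371.UB

/-- `k` blocks of lengths `b j + 1`. -/
abbrev Blk (k : ℕ) (b : Fin k → ℕ) : Type := Σ j : Fin k, Fin (b j + 1)

variable {k : ℕ} [NeZero k] (b : Fin k → ℕ)

/-- the successor -/
def nx (x : Blk k b) : Blk k b :=
  if h : x.2.val < b x.1 then ⟨x.1, ⟨x.2.val + 1, by omega⟩⟩ else ⟨x.1 + 1, ⟨0, by omega⟩⟩

lemma nx_lt (j : Fin k) (i : ℕ) (h : i < b j) :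
    nx b ⟨j, ⟨i, by omega⟩⟩ = ⟨j, ⟨i + 1, by omega⟩⟩ := by
  unfold nx
  rw [dif_pos h]

lemma nx_last (j : Fin k) :
    nx b ⟨j, ⟨b j, by omega⟩⟩ = ⟨j + 1, ⟨0, by omega⟩⟩ := by
  unfold nx
  rw [dif_neg (by simp)]

omit [NeZero k] in
lemma blk_ext {x y : Blk k b} (h1 : x.1 = y.1) (h2 : x.2.val = y.2.val) : x = y := by
  obtain ⟨j, i⟩ := x
  obtain ⟨j', i'⟩ := y
  simp only at h1
  subst h1
  simp only [Sigma.mk.injEq, heq_eq_eq, true_and]
  exact Fin.ext h2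

lemma nx_inj : Function.Injective (nx b) := by
  intro x y h
  unfold nx at h
  by_cases hx : x.2.val < b x.1
  · rw [dif_pos hx] at h
    by_cases hy : y.2.val < b y.1
    · rw [dif_pos hy] at h
      have h1 : x.1 = y.1 := (Sigma.mk.inj_iff.1 h).1
      have h2 : x.2.val + 1 = y.2.val + 1 := congrArg (fun z : Blk k b => z.2.val) h
      exact blk_ext b h1 (by omega)
    · rw [dif_neg hy] at h
      have h2 : x.2.val + 1 = 0 := congrArg (fun z : Blk k b => z.2.val) h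
      omega
  · rw [dif_neg hx] at h
    by_cases hy : y.2.val < b y.1
    · rw [dif_pos hy] at h
      have h2 : 0 = y.2.val + 1 := congrArg (fun z : Blk k b => z.2.val) h
      omega
    · rw [dif_neg hy] at h
      have h1 : x.1 + 1 = y.1 + 1 := congrArg Sigma.fst h
      have h1' : x.1 = y.1 := add_right_cancel h1
      have hx2 := x.2.isLt
      have hy2 := y.2.isLt
      have h3 : b x.1 = b y.1 := by rw [h1']
      exact blk_ext b h1' (by omega)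

/-- the successor as a permutation -/
noncomputable def sx : Equiv.Perm (Blk k b) :=
  Equiv.ofBijective (nx b) (Finite.injective_iff_bijective.1 (nx_inj b))

lemma sx_apply (x : Blk k b) : sx b x = nx b x := rfl

lemma sx_lt (j : Fin k) (i : ℕ) (h : i < b j) :
    sx b ⟨j, ⟨i, by omega⟩⟩ = ⟨j, ⟨i + 1, by omega⟩⟩ := nx_lt b j i h

lemma sx_last (j : Fin k) :
    sx b ⟨j, ⟨b j, by omega⟩⟩ = ⟨j + 1, ⟨0, by omega⟩⟩ := nx_last b j

lemma reach_block (j : Fin k) (i : ℕ) (h : i ≤ b j) :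
    ∃ n : ℕ, ((sx b) ^ n) ⟨j, ⟨0, by omega⟩⟩ = ⟨j, ⟨i, by omega⟩⟩ := by
  induction i with
  | zero => exact ⟨0, rfl⟩
  | succ i ih =>
    obtain ⟨n, hn⟩ := ih (by omega)
    refine ⟨n + 1, ?_⟩
    rw [pow_succ', Equiv.Perm.mul_apply, hn, sx_lt b j i (by omega)]

lemma reach_start (m : ℕ) (hm : m < k) :
    ∃ n : ℕ, ((sx b) ^ n) ⟨0, ⟨0, by omega⟩⟩ = ⟨⟨m, hm⟩, ⟨0, by omega⟩⟩ := by
  induction m with
  | zero =>
    refine ⟨0, blk_ext b ?_ rfl⟩
    simp only [pow_zero, Equiv.Perm.one_apply]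
    rfl
  | succ m ih =>
    obtain ⟨n, hn⟩ := ih (by omega)
    obtain ⟨n', hn'⟩ := reach_block b ⟨m, by omega⟩ (b ⟨m, by omega⟩) le_rfl
    refine ⟨1 + (n' + n), ?_⟩
    rw [pow_add, pow_add, Equiv.Perm.mul_apply, Equiv.Perm.mul_apply, hn, hn', pow_one, sx_last]
    apply blk_ext
    · apply Fin.ext
      simp only [Fin.val_add, Fin.val_one']
      rw [Nat.add_mod_mod, Nat.mod_eq_of_lt hm]
    · rfl

lemma reach (y : Blk k b) : ∃ n : ℕ, ((sx b) ^ n) ⟨0, ⟨0, by omega⟩⟩ = y := by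
  obtain ⟨j, ⟨i, hi⟩⟩ := y
  obtain ⟨n, hn⟩ := reach_start b j.val j.isLt
  obtain ⟨n', hn'⟩ := reach_block b j i (by omega)
  refine ⟨n' + n, ?_⟩
  rw [pow_add, Equiv.Perm.mul_apply, hn]
  exact hn'

lemma sx_cyc (x y : Blk k b) : ∃ n : ℕ, ((sx b) ^ n) x = y := by
  obtain ⟨n, hn⟩ := reach b x
  obtain ⟨m, hm⟩ := reach b y
  have h1 : ∃ n' : ℕ, ((sx b) ^ n') x = ⟨0, ⟨0, by omega⟩⟩ := by
    have ho := pow_orderOf_eq_one (sx b)
    have hpos : 0 < orderOf (sx b) := orderOf_pos _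
    refine ⟨n * orderOf (sx b) - n, ?_⟩
    rw [← hn, ← Equiv.Perm.mul_apply, ← pow_add,
      Nat.sub_add_cancel (Nat.le_mul_of_pos_right n hpos), mul_comm, pow_mul, ho, one_pow,
      Equiv.Perm.one_apply]
  obtain ⟨n', hn'⟩ := h1
  exact ⟨m + n', by rw [pow_add, Equiv.Perm.mul_apply, hn', hm]⟩

omit [NeZero k] in
/-- sums over the index set -/
lemma sum_blk (F : Blk k b → ℤ) :
    ∑ x, F x = ∑ j : Fin k, ((∑ i : Fin (b j), F ⟨j, ⟨i.val, by omega⟩⟩) +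
      F ⟨j, ⟨b j, by omega⟩⟩) := by
  rw [Fintype.sum_sigma]
  refine Finset.sum_congr rfl fun j _ => ?_
  rw [Fin.sum_univ_castSucc]
  rfl

end Pool.Agent.N371.UB
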