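import Pool.Agent.N371.UB.Eqs
import Pool.Agent.N371.UB.Cert

/-!
# The lower bound
-/

set_option autoImplicit false

namespace Pool.Agent.N371.UB

/-- first ends of the edges -/
def EU (e : ℕ) : Fin 10 :=
  [0, 0, 0, 0, 1, 1, 1, 2, 2, 3, 3, 4, 4, 4, 5, 6, 6, 8].getD e 0

/-- second ends of the edges -/
def EV (e : ℕ) : Fin 10 :=
  [1, 2, 3, 7, 2, 7, 6, 3, 5, 5, 4, 5, 6, 7, 8, 9, 7, 9].getD e 0

/-- ends of a dart -/
def prOf (q : Fin 18 × Bool) : Fin 10 × Fin 10 :=
  if q.2 then (EU q.1.val, EV q.1.val) else (EV q.1.val, EU q.1.val)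

lemma prOf_adj : ∀ q, gr.Adj (prOf q).1 (prOf q).2 := by decide

lemma prOf_inj : Function.Injective prOf := by decide

lemma prOf_surj : ∀ v w, gr.Adj v w → ∃ q, prOf q = (v, w) := by decide

/-- the darts -/
def dOf (q : Fin 18 × Bool) : GG.graph.Dart := ⟨prOf q, prOf_adj q⟩

lemma dOf_bij : Function.Bijective dOf := by
  constructor
  · intro a b hab
    exact prOf_inj (congrArg (fun d : GG.graph.Dart => d.toProd) hab)
  · intro d
    obtain ⟨q, hq⟩ := prOf_surj d.fst d.snd d.adj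
    exact ⟨q, SimpleGraph.Dart.ext _ _ hq⟩

variable (D : Drawing GG)

lemma bends_dOf (q : Fin 18 × Bool) : D.bends (dOf q) = BB D (EU q.1.val) (EV q.1.val) := by
  obtain ⟨e, b⟩ := q
  cases b
  · have h : gr.Adj (EV e.val) (EU e.val) := prOf_adj (e, false)
    rw [← BB_symm]
    unfold BB
    rw [dif_pos h]
    rfl
  · have h : gr.Adj (EU e.val) (EV e.val) := prOf_adj (e, true)
    unfold BB
    rw [dif_pos h]
    rfl

lemma totalBends_eq : D.totalBends = ∑ e : Fin 18, BB D (EU e.val) (EV e.val) := by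
  classical
  unfold Drawing.totalBends
  rw [← Function.Bijective.sum_comp dOf_bij]
  simp only [bends_dOf]
  rw [Fintype.sum_prod_type]
  simp only [Fintype.sum_bool]
  have : ∑ x : Fin 18, (BB D (EU x.val) (EV x.val) + BB D (EU x.val) (EV x.val)) =
      (∑ e : Fin 18, BB D (EU e.val) (EV e.val)) * 2 := by
    rw [Finset.sum_mul]
    exact Finset.sum_congr rfl fun x _ => by ring
  rw [this, Nat.mul_div_cancel _ (by norm_num)]

lemma faceEqs : ∃ x : ℤ, 2 ≤ x ∧ x ≤ 6 ∧ FaceEqs (fun e => TT D (EU e) (EV e)) x := eqs D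

lemma lower_two (D1 D2 : Drawing GG)
    (h : ∀ d : GG.graph.Dart, D1.bends d = 0 ∨ D2.bends d = 0) :
    37 ≤ D1.totalBends + D2.totalBends := by
  obtain ⟨x1, a1, a2, a3⟩ := faceEqs D1
  obtain ⟨x2, c1, c2, c3⟩ := faceEqs D2
  have key := check_sound (b1 := fun e => (BB D1 (EU e) (EV e) : ℤ))
    (b2 := fun e => (BB D2 (EU e) (EV e) : ℤ)) a1 a2 c1 c2 a3 c3
    (fun e => TT_le D1 _ _) (fun e => TT_le D2 _ _) (fun e he => by
      have h0 := h (dOf (⟨e, he⟩, true))
      rw [bends_dOf, bends_dOf] at h0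
      have hle1 := TT_le D1 (EU e) (EV e)
      have hle2 := TT_le D2 (EU e) (EV e)
      rcases h0 with h0 | h0
      · left
        simp only at h0
        rw [h0] at hle1
        simpa using hle1
      · right
        simp only at h0
        rw [h0] at hle2
        simpa using hle2) tree 0 0 (by simp) (by simp) check_tree
  rw [totalBends_eq, totalBends_eq, Finset.sum_fin_eq_sum_range, Finset.sum_fin_eq_sum_range]
  have e1 : ∀ D : Drawing GG, (∑ i ∈ Finset.range 18, if h : i < 18 then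
      BB D (EU (⟨i, h⟩ : Fin 18).val) (EV (⟨i, h⟩ : Fin 18).val) else 0) =
      ∑ i ∈ Finset.range 18, BB D (EU i) (EV i) := by
    intro D
    refine Finset.sum_congr rfl fun i hi => ?_
    rw [dif_pos (Finset.mem_range.1 hi)]
  rw [e1, e1]
  have e2 : ((∑ i ∈ Finset.range 18, BB D1 (EU i) (EV i) +
      ∑ i ∈ Finset.range 18, BB D2 (EU i) (EV i) : ℕ) : ℤ) =
      ∑ i ∈ Finset.range 18, (BB D1 (EU i) (EV i) : ℤ) +
      ∑ i ∈ Finset.range 18, (BB D2 (EU i) (EV i) : ℤ) := by
    push_cast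
    rfl
  have : (37 : ℤ) ≤ ((∑ i ∈ Finset.range 18, BB D1 (EU i) (EV i) +
      ∑ i ∈ Finset.range 18, BB D2 (EU i) (EV i) : ℕ) : ℤ) := by
    rw [e2]
    exact key
  exact_mod_cast this

/-- no drawing is free of bends -/
lemma not_one (D : Drawing GG) : ¬ ∀ d : GG.graph.Dart, D.bends d = 0 := by
  intro h
  have h1 := lower_two D D (fun d => Or.inl (h d))
  have h2 : D.totalBends = 0 := by
    unfold Drawing.totalBends
    rw [Finset.sum_eq_zero (fun d _ => h d), Nat.zero_div]
  omega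

lemma two_le_card (C : Finset (Drawing GG)) (h : IsUnbentCollection C) : 2 ≤ C.card := by
  by_contra hc
  have h1 : C.card = 0 ∨ C.card = 1 := by omega
  rcases h1 with h1 | h1
  · rw [Finset.card_eq_zero] at h1
    obtain ⟨D, hD, -⟩ := h GG.outer
    rw [h1] at hD
    exact absurd hD (Finset.notMem_empty D)
  · rw [Finset.card_eq_one] at h1
    obtain ⟨D, hD⟩ := h1
    apply not_one D
    intro d
    obtain ⟨D', hD', h2⟩ := h d
    rw [hD, Finset.mem_singleton] at hD'
    rw [← hD']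
    exact h2

lemma lower_card_two (C : Finset (Drawing GG)) (h : IsUnbentCollection C) (hc : C.card = 2) :
    37 ≤ collectionBends C := by
  classical
  obtain ⟨D1, D2, hne, rfl⟩ := Finset.card_eq_two.1 hc
  unfold collectionBends
  rw [Finset.sum_pair hne]
  apply lower_two
  intro d
  obtain ⟨D, hD, h1⟩ := h d
  rw [Finset.mem_insert, Finset.mem_singleton] at hD
  rcases hD with rfl | rfl
  · exact Or.inl h1
  · exact Or.inr h1

end Pool.Agent.N371.UB
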