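import Pool.Agent.N371.UB.Draw
import Pool.Agent.N371.UB.Lower

/-!
# The explicit drawings
-/

set_option autoImplicit false

namespace Pool.Agent.N371.UB

/-- chains in both directions from the chains of the edges `v < w` -/
def both (up : ℕ → ℕ → List (ℤ × ℤ)) (v w : Fin 10) : List (ℤ × ℤ) :=
  if v < w then up v.val w.val else (up w.val v.val).reverse

/-- vertices of drawing A1 -/
def posA1 : Fin 10 → ℤ × ℤ :=
  ![(3, 5), (4, 5), (3, 10), (8, 6), (7, 5), (7, 6), (5, 5), (4, 4), (6, 6), (5, 6)]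

/-- edges of drawing A1 -/
def upA1 : ℕ → ℕ → List (ℤ × ℤ)
  | 0, 1 => [(3, 5), (4, 5)]
  | 0, 2 => [(3, 5), (3, 10)]
  | 0, 3 => [(3, 5), (2, 5), (2, 2), (9, 2), (9, 6), (8, 6)]
  | 0, 7 => [(3, 5), (3, 4), (4, 4)]
  | 1, 2 => [(4, 5), (4, 10), (3, 10)]
  | 1, 7 => [(4, 5), (4, 4)]
  | 1, 6 => [(4, 5), (5, 5)]
  | 2, 3 => [(3, 10), (1, 10), (1, 1), (10, 1), (10, 7), (8, 7), (8, 6)]
  | 2, 5 => [(3, 10), (3, 11), (0, 11), (0, 0), (11, 0), (11, 8), (7, 8), (7, 6)]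
  | 3, 5 => [(8, 6), (7, 6)]
  | 3, 4 => [(8, 6), (8, 5), (7, 5)]
  | 4, 5 => [(7, 5), (7, 6)]
  | 4, 6 => [(7, 5), (5, 5)]
  | 4, 7 => [(7, 5), (7, 3), (4, 3), (4, 4)]
  | 5, 8 => [(7, 6), (6, 6)]
  | 6, 9 => [(5, 5), (5, 6)]
  | 6, 7 => [(5, 5), (5, 4), (4, 4)]
  | 8, 9 => [(6, 6), (5, 6)]
  | _, _ => []

lemma okA1 : Ok posA1 (both upA1) where
  csymm := by decide +kernel
  len := by decide +kernel
  start := by decide +kernel
  axis := by decide +kernel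
  bend := by decide +kernel
  simple := by decide +kernel
  inj := by decide +kernel
  avoid := by decide +kernel
  cross := by decide +kernel
  rot := by decide +kernel
  ray := by decide +kernel
  ray' := by decide +kernel

/-- vertices of drawing A2 -/
def posA2 : Fin 10 → ℤ × ℤ :=
  ![(4, 3), (3, 6), (3, 4), (3, 3), (3, 2), (2, 4), (4, 1), (4, 2), (0, 0), (4, 0)]

/-- edges of drawing A2 -/
def upA2 : ℕ → ℕ → List (ℤ × ℤ)
  | 0, 1 => [(4, 3), (5, 3), (5, 6), (3, 6)]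
  | 0, 2 => [(4, 3), (4, 4), (3, 4)]
  | 0, 3 => [(4, 3), (3, 3)]
  | 0, 7 => [(4, 3), (4, 2)]
  | 1, 2 => [(3, 6), (3, 4)]
  | 1, 7 => [(3, 6), (3, 7), (6, 7), (6, 2), (4, 2)]
  | 1, 6 => [(3, 6), (1, 6), (1, 8), (8, 8), (8, 1), (4, 1)]
  | 2, 3 => [(3, 4), (3, 3)]
  | 2, 5 => [(3, 4), (2, 4)]
  | 3, 5 => [(3, 3), (2, 3), (2, 4)]
  | 3, 4 => [(3, 3), (3, 2)]
  | 4, 5 => [(3, 2), (1, 2), (1, 4), (2, 4)]
  | 4, 6 => [(3, 2), (3, 1), (4, 1)]
  | 4, 7 => [(3, 2), (4, 2)]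
  | 5, 8 => [(2, 4), (2, 5), (0, 5), (0, 0)]
  | 6, 9 => [(4, 1), (4, 0)]
  | 6, 7 => [(4, 1), (4, 2)]
  | 8, 9 => [(0, 0), (4, 0)]
  | _, _ => []

lemma okA2 : Ok posA2 (both upA2) where
  csymm := by decide +kernel
  len := by decide +kernel
  start := by decide +kernel
  axis := by decide +kernel
  bend := by decide +kernel
  simple := by decide +kernel
  inj := by decide +kernel
  avoid := by decide +kernel
  cross := by decide +kernel
  rot := by decide +kernel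
  ray := by decide +kernel
  ray' := by decide +kernel

/-- vertices of drawing B1 -/
def posB1 : Fin 10 → ℤ × ℤ :=
  ![(3, 3), (4, 3), (3, 4), (2, 3), (2, 2), (1, 2), (3, 1), (3, 2), (1, 0), (3, 0)]

/-- edges of drawing B1 -/
def upB1 : ℕ → ℕ → List (ℤ × ℤ)
  | 0, 1 => [(3, 3), (4, 3)]
  | 0, 2 => [(3, 3), (3, 4)]
  | 0, 3 => [(3, 3), (2, 3)]
  | 0, 7 => [(3, 3), (3, 2)]
  | 1, 2 => [(4, 3), (4, 4), (3, 4)]
  | 1, 7 => [(4, 3), (4, 2), (3, 2)]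
  | 1, 6 => [(4, 3), (5, 3), (5, 1), (3, 1)]
  | 2, 3 => [(3, 4), (2, 4), (2, 3)]
  | 2, 5 => [(3, 4), (3, 5), (0, 5), (0, 2), (1, 2)]
  | 3, 5 => [(2, 3), (1, 3), (1, 2)]
  | 3, 4 => [(2, 3), (2, 2)]
  | 4, 5 => [(2, 2), (1, 2)]
  | 4, 6 => [(2, 2), (2, 1), (3, 1)]
  | 4, 7 => [(2, 2), (3, 2)]
  | 5, 8 => [(1, 2), (1, 0)]
  | 6, 9 => [(3, 1), (3, 0)]
  | 6, 7 => [(3, 1), (3, 2)]
  | 8, 9 => [(1, 0), (3, 0)]
  | _, _ => []

lemma okB1 : Ok posB1 (both upB1) where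
  csymm := by decide +kernel
  len := by decide +kernel
  start := by decide +kernel
  axis := by decide +kernel
  bend := by decide +kernel
  simple := by decide +kernel
  inj := by decide +kernel
  avoid := by decide +kernel
  cross := by decide +kernel
  rot := by decide +kernel
  ray := by decide +kernel
  ray' := by decide +kernel

/-- vertices of drawing B2 -/
def posB2 : Fin 10 → ℤ × ℤ :=
  ![(3, 3), (4, 4), (3, 4), (2, 3), (2, 2), (1, 3), (2, 1), (3, 2), (0, 3), (0, 1)]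

/-- edges of drawing B2 -/
def upB2 : ℕ → ℕ → List (ℤ × ℤ)
  | 0, 1 => [(3, 3), (4, 3), (4, 4)]
  | 0, 2 => [(3, 3), (3, 4)]
  | 0, 3 => [(3, 3), (2, 3)]
  | 0, 7 => [(3, 3), (3, 2)]
  | 1, 2 => [(4, 4), (3, 4)]
  | 1, 7 => [(4, 4), (5, 4), (5, 2), (3, 2)]
  | 1, 6 => [(4, 4), (4, 5), (6, 5), (6, 0), (2, 0), (2, 1)]
  | 2, 3 => [(3, 4), (2, 4), (2, 3)]
  | 2, 5 => [(3, 4), (3, 5), (1, 5), (1, 3)]
  | 3, 5 => [(2, 3), (1, 3)]
  | 3, 4 => [(2, 3), (2, 2)]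
  | 4, 5 => [(2, 2), (1, 2), (1, 3)]
  | 4, 6 => [(2, 2), (2, 1)]
  | 4, 7 => [(2, 2), (3, 2)]
  | 5, 8 => [(1, 3), (0, 3)]
  | 6, 9 => [(2, 1), (0, 1)]
  | 6, 7 => [(2, 1), (3, 1), (3, 2)]
  | 8, 9 => [(0, 3), (0, 1)]
  | _, _ => []

lemma okB2 : Ok posB2 (both upB2) where
  csymm := by decide +kernel
  len := by decide +kernel
  start := by decide +kernel
  axis := by decide +kernel
  bend := by decide +kernel
  simple := by decide +kernel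
  inj := by decide +kernel
  avoid := by decide +kernel
  cross := by decide +kernel
  rot := by decide +kernel
  ray := by decide +kernel
  ray' := by decide +kernel

/-- vertices of drawing B3 -/
def posB3 : Fin 10 → ℤ × ℤ :=
  ![(4, 4), (5, 3), (3, 5), (3, 4), (3, 3), (2, 5), (5, 2), (4, 3), (6, 0), (6, 2)]

/-- edges of drawing B3 -/
def upB3 : ℕ → ℕ → List (ℤ × ℤ)
  | 0, 1 => [(4, 4), (5, 4), (5, 3)]
  | 0, 2 => [(4, 4), (4, 5), (3, 5)]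
  | 0, 3 => [(4, 4), (3, 4)]
  | 0, 7 => [(4, 4), (4, 3)]
  | 1, 2 => [(5, 3), (6, 3), (6, 6), (3, 6), (3, 5)]
  | 1, 7 => [(5, 3), (4, 3)]
  | 1, 6 => [(5, 3), (5, 2)]
  | 2, 3 => [(3, 5), (3, 4)]
  | 2, 5 => [(3, 5), (2, 5)]
  | 3, 5 => [(3, 4), (2, 4), (2, 5)]
  | 3, 4 => [(3, 4), (3, 3)]
  | 4, 5 => [(3, 3), (1, 3), (1, 5), (2, 5)]
  | 4, 6 => [(3, 3), (3, 1), (5, 1), (5, 2)]
  | 4, 7 => [(3, 3), (4, 3)]
  | 5, 8 => [(2, 5), (2, 6), (0, 6), (0, 0), (6, 0)]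
  | 6, 9 => [(5, 2), (6, 2)]
  | 6, 7 => [(5, 2), (4, 2), (4, 3)]
  | 8, 9 => [(6, 0), (6, 2)]
  | _, _ => []

lemma okB3 : Ok posB3 (both upB3) where
  csymm := by decide +kernel
  len := by decide +kernel
  start := by decide +kernel
  axis := by decide +kernel
  bend := by decide +kernel
  simple := by decide +kernel
  inj := by decide +kernel
  avoid := by decide +kernel
  cross := by decide +kernel
  rot := by decide +kernel
  ray := by decide +kernel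
  ray' := by decide +kernel

end Pool.Agent.N371.UB
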