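import Pool.Agent.N371.UB.Graph

/-!
# Checking integer drawings
-/

set_option autoImplicit false

namespace Pool.Agent.N371.UB

open scoped Topology

/-- an integer point as a real point -/
def toR (q : ℤ × ℤ) : ℝ × ℝ := ((q.1 : ℝ), (q.2 : ℝ))

lemma toR_zero : toR 0 = 0 := by
  unfold toR
  simp

lemma toR_inj : Function.Injective toR := by
  intro a b h
  have h1 : (a.1 : ℝ) = b.1 := congrArg Prod.fst h
  have h2 : (a.2 : ℝ) = b.2 := congrArg Prod.snd h
  exact Prod.ext (by exact_mod_cast h1) (by exact_mod_cast h2)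

lemma getD_toR (l : List (ℤ × ℤ)) (i : ℕ) : (l.map toR).getD i 0 = toR (l.getD i 0) := by
  rw [← toR_zero]
  exact List.getD_map ..

lemma seg_fst {a b : ℤ × ℤ} {z : ℝ × ℝ} (hz : z ∈ segment ℝ (toR a) (toR b)) :
    ((min a.1 b.1 : ℤ) : ℝ) ≤ z.1 ∧ z.1 ≤ ((max a.1 b.1 : ℤ) : ℝ) := by
  obtain ⟨s, t, hs, ht, hst, rfl⟩ := hz
  push_cast
  exact ⟨Convex.min_le_combo _ _ hs ht hst, Convex.combo_le_max _ _ hs ht hst⟩

lemma seg_snd {a b : ℤ × ℤ} {z : ℝ × ℝ} (hz : z ∈ segment ℝ (toR a) (toR b)) :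
    ((min a.2 b.2 : ℤ) : ℝ) ≤ z.2 ∧ z.2 ≤ ((max a.2 b.2 : ℤ) : ℝ) := by
  obtain ⟨s, t, hs, ht, hst, rfl⟩ := hz
  push_cast
  exact ⟨Convex.min_le_combo _ _ hs ht hst, Convex.combo_le_max _ _ hs ht hst⟩

/-- bounding boxes are disjoint -/
def sep (a b c d : ℤ × ℤ) : Bool :=
  decide (max a.1 b.1 < min c.1 d.1) || decide (max c.1 d.1 < min a.1 b.1) ||
    decide (max a.2 b.2 < min c.2 d.2) || decide (max c.2 d.2 < min a.2 b.2)

lemma sep_sound {a b c d : ℤ × ℤ} (h : sep a b c d = true) {z : ℝ × ℝ}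
    (h1 : z ∈ segment ℝ (toR a) (toR b)) (h2 : z ∈ segment ℝ (toR c) (toR d)) : False := by
  unfold sep at h
  simp only [Bool.or_eq_true, decide_eq_true_iff] at h
  have a1 := seg_fst h1
  have a2 := seg_snd h1
  have b1 := seg_fst h2
  have b2 := seg_snd h2
  rcases h with ((h | h) | h) | h
  · have : ((max a.1 b.1 : ℤ) : ℝ) < ((min c.1 d.1 : ℤ) : ℝ) := by exact_mod_cast h
    linarith
  · have : ((max c.1 d.1 : ℤ) : ℝ) < ((min a.1 b.1 : ℤ) : ℝ) := by exact_mod_cast h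
    linarith
  · have : ((max a.2 b.2 : ℤ) : ℝ) < ((min c.2 d.2 : ℤ) : ℝ) := by exact_mod_cast h
    linarith
  · have : ((max c.2 d.2 : ℤ) : ℝ) < ((min a.2 b.2 : ℤ) : ℝ) := by exact_mod_cast h
    linarith

/-- bounding boxes meet at most in the point `q` -/
def touch (a b c d q : ℤ × ℤ) : Bool :=
  decide (q.1 ≤ max (min a.1 b.1) (min c.1 d.1)) && decide (min (max a.1 b.1) (max c.1 d.1) ≤ q.1) &&
    decide (q.2 ≤ max (min a.2 b.2) (min c.2 d.2)) &&
      decide (min (max a.2 b.2) (max c.2 d.2) ≤ q.2)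

lemma touch_sound {a b c d q : ℤ × ℤ} (h : touch a b c d q = true) {z : ℝ × ℝ}
    (h1 : z ∈ segment ℝ (toR a) (toR b)) (h2 : z ∈ segment ℝ (toR c) (toR d)) : z = toR q := by
  unfold touch at h
  simp only [Bool.and_eq_true, decide_eq_true_iff] at h
  obtain ⟨⟨⟨k1, k2⟩, k3⟩, k4⟩ := h
  have a1 := seg_fst h1
  have a2 := seg_snd h1
  have b1 := seg_fst h2
  have b2 := seg_snd h2
  have k1' : (q.1 : ℝ) ≤ max ((min a.1 b.1 : ℤ) : ℝ) ((min c.1 d.1 : ℤ) : ℝ) := by
    exact_mod_cast k1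
  have k2' : min ((max a.1 b.1 : ℤ) : ℝ) ((max c.1 d.1 : ℤ) : ℝ) ≤ (q.1 : ℝ) := by
    exact_mod_cast k2
  have k3' : (q.2 : ℝ) ≤ max ((min a.2 b.2 : ℤ) : ℝ) ((min c.2 d.2 : ℤ) : ℝ) := by
    exact_mod_cast k3
  have k4' : min ((max a.2 b.2 : ℤ) : ℝ) ((max c.2 d.2 : ℤ) : ℝ) ≤ (q.2 : ℝ) := by
    exact_mod_cast k4
  have e1 := k1'.trans (max_le a1.1 b1.1)
  have e2 := (le_min a1.2 b1.2).trans k2'
  have e3 := k3'.trans (max_le a2.1 b2.1)
  have e4 := (le_min a2.2 b2.2).trans k4'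
  exact Prod.ext (le_antisymm e2 e1) (le_antisymm e4 e3)

/-- The ray from the midpoint `m / 2` (excluded) in direction `n` misses a segment. -/
def rayok (m n c d : ℤ × ℤ) : Bool :=
  (decide (n.1 = 0) && (decide (m.1 < 2 * min c.1 d.1) || decide (2 * max c.1 d.1 < m.1))) ||
  (decide (n.2 = 0) && (decide (m.2 < 2 * min c.2 d.2) || decide (2 * max c.2 d.2 < m.2))) ||
  (decide (0 < n.1) && decide (2 * max c.1 d.1 ≤ m.1)) ||
  (decide (n.1 < 0) && decide (m.1 ≤ 2 * min c.1 d.1)) ||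
  (decide (0 < n.2) && decide (2 * max c.2 d.2 ≤ m.2)) ||
  (decide (n.2 < 0) && decide (m.2 ≤ 2 * min c.2 d.2))

lemma rayok_sound {m n c d : ℤ × ℤ} (h : rayok m n c d = true) {t : ℝ} (ht : 0 < t) :
    (1 / 2 : ℝ) • toR m + t • toR n ∉ segment ℝ (toR c) (toR d) := by
  intro hz
  have a1 := seg_fst hz
  have a2 := seg_snd hz
  have e1 : ((1 / 2 : ℝ) • toR m + t • toR n).1 = (m.1 : ℝ) / 2 + t * n.1 := by
    simp [toR]; ring
  have e2 : ((1 / 2 : ℝ) • toR m + t • toR n).2 = (m.2 : ℝ) / 2 + t * n.2 := by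
    simp [toR]; ring
  rw [e1] at a1
  rw [e2] at a2
  unfold rayok at h
  simp only [Bool.or_eq_true, Bool.and_eq_true, decide_eq_true_iff] at h
  rcases h with ((((⟨h1, h2 | h2⟩ | ⟨h1, h2 | h2⟩) | ⟨h1, h2⟩) | ⟨h1, h2⟩) | ⟨h1, h2⟩) | ⟨h1, h2⟩
  · have h2' : (m.1 : ℝ) < 2 * ((min c.1 d.1 : ℤ) : ℝ) := by exact_mod_cast h2
    rw [h1] at a1
    simp only [Int.cast_zero, mul_zero, add_zero] at a1
    linarith [a1.1]
  · have h2' : 2 * ((max c.1 d.1 : ℤ) : ℝ) < (m.1 : ℝ) := by exact_mod_cast h2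
    rw [h1] at a1
    simp only [Int.cast_zero, mul_zero, add_zero] at a1
    linarith [a1.2]
  · have h2' : (m.2 : ℝ) < 2 * ((min c.2 d.2 : ℤ) : ℝ) := by exact_mod_cast h2
    rw [h1] at a2
    simp only [Int.cast_zero, mul_zero, add_zero] at a2
    linarith [a2.1]
  · have h2' : 2 * ((max c.2 d.2 : ℤ) : ℝ) < (m.2 : ℝ) := by exact_mod_cast h2
    rw [h1] at a2
    simp only [Int.cast_zero, mul_zero, add_zero] at a2
    linarith [a2.2]
  · have h1' : (0 : ℝ) < n.1 := by exact_mod_cast h1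
    have h2' : 2 * ((max c.1 d.1 : ℤ) : ℝ) ≤ (m.1 : ℝ) := by exact_mod_cast h2
    have := mul_pos ht h1'
    linarith [a1.2]
  · have h1' : (n.1 : ℝ) < 0 := by exact_mod_cast h1
    have h2' : (m.1 : ℝ) ≤ 2 * ((min c.1 d.1 : ℤ) : ℝ) := by exact_mod_cast h2
    have := mul_neg_of_pos_of_neg ht h1'
    linarith [a1.1]
  · have h1' : (0 : ℝ) < n.2 := by exact_mod_cast h1
    have h2' : 2 * ((max c.2 d.2 : ℤ) : ℝ) ≤ (m.2 : ℝ) := by exact_mod_cast h2
    have := mul_pos ht h1'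
    linarith [a2.2]
  · have h1' : (n.2 : ℝ) < 0 := by exact_mod_cast h1
    have h2' : (m.2 : ℝ) ≤ 2 * ((min c.2 d.2 : ℤ) : ℝ) := by exact_mod_cast h2
    have := mul_neg_of_pos_of_neg ht h1'
    linarith [a2.1]

/-- an open ray that misses a set shows that its points lie in an unbounded component -/
lemma ray_unbounded {S : Set (ℝ × ℝ)} {m n : ℝ × ℝ} (hn : n ≠ 0)
    (h : ∀ t : ℝ, 0 < t → m + t • n ∉ S) {t : ℝ} (ht : 0 < t) :
    ¬ Bornology.IsBounded (connectedComponentIn Sᶜ (m + t • n)) := by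
  intro hb
  have hc : IsPreconnected ((fun t : ℝ => m + t • n) '' Set.Ioi 0) := by
    apply isPreconnected_Ioi.image
    fun_prop
  have hsub : (fun t : ℝ => m + t • n) '' Set.Ioi 0 ⊆ Sᶜ := by
    rintro _ ⟨s, hs, rfl⟩
    exact h s hs
  have h1 : (fun t : ℝ => m + t • n) '' Set.Ioi 0 ⊆ connectedComponentIn Sᶜ (m + t • n) :=
    hc.subset_connectedComponentIn ⟨t, ht, rfl⟩ hsub
  have h2 := hb.subset h1
  rw [isBounded_iff_forall_norm_le] at h2
  obtain ⟨C, hC⟩ := h2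
  have hn' : 0 < ‖n‖ := norm_pos_iff.2 hn
  have hpos : 0 < (|C| + ‖m‖ + 1) / ‖n‖ := by positivity
  have h3 := hC _ ⟨(|C| + ‖m‖ + 1) / ‖n‖, hpos, rfl⟩
  have h4 : ‖((|C| + ‖m‖ + 1) / ‖n‖) • n‖ = |C| + ‖m‖ + 1 := by
    rw [norm_smul, Real.norm_of_nonneg hpos.le, div_mul_cancel₀ _ hn'.ne']
  have h5 : ‖((|C| + ‖m‖ + 1) / ‖n‖) • n‖ ≤ ‖m + ((|C| + ‖m‖ + 1) / ‖n‖) • n‖ + ‖m‖ := by
    have := norm_sub_le (m + ((|C| + ‖m‖ + 1) / ‖n‖) • n) m
    rwa [add_sub_cancel_left] at this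
  have h6 := le_abs_self C
  simp only at h3
  linarith

/-- direction of an integer vector -/
def dirZ (u : ℤ × ℤ) : ZMod 4 :=
  if 0 < u.1 then 0 else if 0 < u.2 then 1 else if u.1 < 0 then 2 else 3

lemma direction_toR (p q : ℤ × ℤ) : direction (toR p - toR q) = dirZ (p - q) := by
  have e1 : (toR p - toR q).1 = ((p - q).1 : ℝ) := by simp [toR]
  have e2 : (toR p - toR q).2 = ((p - q).2 : ℝ) := by simp [toR]
  unfold direction dirZ
  rw [e1, e2]
  simp only [Int.cast_pos, Int.cast_lt_zero]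

/-- The conditions on an integer drawing. -/
structure Ok (pos : Fin 10 → ℤ × ℤ) (ch : Fin 10 → Fin 10 → List (ℤ × ℤ)) : Prop where
  csymm : ∀ v w, gr.Adj v w → ch w v = (ch v w).reverse
  len : ∀ v w, gr.Adj v w → 2 ≤ (ch v w).length
  start : ∀ v w, gr.Adj v w → (ch v w).getD 0 0 = pos v
  axis : ∀ v w, gr.Adj v w → ∀ i, i < (ch v w).length - 1 →
    ((ch v w).getD i 0).1 = ((ch v w).getD (i + 1) 0).1 ∧
        ((ch v w).getD i 0).2 ≠ ((ch v w).getD (i + 1) 0).2 ∨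
      ((ch v w).getD i 0).1 ≠ ((ch v w).getD (i + 1) 0).1 ∧
        ((ch v w).getD i 0).2 = ((ch v w).getD (i + 1) 0).2
  bend : ∀ v w, gr.Adj v w → ∀ i, i < (ch v w).length - 2 →
    (((ch v w).getD i 0).1 = ((ch v w).getD (i + 1) 0).1 ↔
      ((ch v w).getD (i + 1) 0).2 = ((ch v w).getD (i + 2) 0).2)
  simple : ∀ v w, gr.Adj v w → ∀ j, j < (ch v w).length - 1 → ∀ i, i < j - 1 →
    sep ((ch v w).getD i 0) ((ch v w).getD (i + 1) 0)
      ((ch v w).getD j 0) ((ch v w).getD (j + 1) 0) = true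
  inj : Function.Injective pos
  avoid : ∀ v w, gr.Adj v w → ∀ i, i < (ch v w).length - 1 → ∀ u, u = v ∨ u = w ∨
    sep (pos u) (pos u) ((ch v w).getD i 0) ((ch v w).getD (i + 1) 0) = true
  cross : ∀ v w, gr.Adj v w → ∀ v' w', gr.Adj v' w' → ¬ (v' = v ∧ w' = w) → ¬ (v' = w ∧ w' = v) →
    ∀ i, i < (ch v w).length - 1 → ∀ j, j < (ch v' w').length - 1 →
    sep ((ch v w).getD i 0) ((ch v w).getD (i + 1) 0)
      ((ch v' w').getD j 0) ((ch v' w').getD (j + 1) 0) = true ∨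
    ∃ u, (u = v ∨ u = w) ∧ (u = v' ∨ u = w') ∧
      touch ((ch v w).getD i 0) ((ch v w).getD (i + 1) 0)
        ((ch v' w').getD j 0) ((ch v' w').getD (j + 1) 0) (pos u) = true
  rot : ∀ v w, gr.Adj v w → ∀ w', gr.Adj v w' → w' ≠ w →
    (dirZ ((ch v (nxt v w)).getD 1 0 - pos v) - dirZ ((ch v w).getD 1 0 - pos v)).val ≤
      (dirZ ((ch v w').getD 1 0 - pos v) - dirZ ((ch v w).getD 1 0 - pos v)).val
  ray : ∀ v w, gr.Adj v w → ∀ i, i < (ch v w).length - 1 →
    rayok (pos 9 + (ch 9 8).getD 1 0)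
      (-((ch 9 8).getD 1 0 - pos 9).2, ((ch 9 8).getD 1 0 - pos 9).1)
      ((ch v w).getD i 0) ((ch v w).getD (i + 1) 0) = true
  ray' : ∀ v, rayok (pos 9 + (ch 9 8).getD 1 0)
      (-((ch 9 8).getD 1 0 - pos 9).2, ((ch 9 8).getD 1 0 - pos 9).1) (pos v) (pos v) = true

/-- The drawing given by integer data. -/
noncomputable def mkD {pos : Fin 10 → ℤ × ℤ} {ch : Fin 10 → Fin 10 → List (ℤ × ℤ)}
    (h : Ok pos ch) : Drawing GG where
  pos v := toR (pos v)
  chain d := (ch d.fst d.snd).map toR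
  chain_symm d := by
    rw [← List.map_reverse]
    exact congrArg (List.map toR) (h.csymm d.fst d.snd d.adj)
  chain_length d := by
    rw [List.length_map]
    exact h.len _ _ d.adj
  chain_start d := by
    rw [getD_toR, h.start _ _ d.adj]
  axis d i hi := by
    rw [List.length_map] at hi
    rw [getD_toR, getD_toR]
    have := h.axis _ _ d.adj i (by omega)
    unfold toR
    simpa using this
  bend d i hi := by
    rw [List.length_map] at hi
    rw [getD_toR, getD_toR, getD_toR]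
    have := h.bend _ _ d.adj i (by omega)
    unfold toR
    simpa using this
  simple d i j hij hj := by
    rw [List.length_map] at hj
    rw [getD_toR, getD_toR, getD_toR, getD_toR, Set.disjoint_left]
    intro z h1 h2
    exact sep_sound (h.simple _ _ d.adj j (by omega) i (by omega)) h1 h2
  pos_inj := toR_inj.comp h.inj
  avoid d i w hi hw := by
    rw [List.length_map] at hi
    rw [getD_toR, getD_toR] at hw
    rcases h.avoid _ _ d.adj i (by omega) w with h1 | h1 | h1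
    · exact Or.inl h1
    · exact Or.inr h1
    · exact (sep_sound h1 (left_mem_segment ℝ _ _) hw).elim
  cross d e i j h1 h2 hi hj z hz1 hz2 := by
    rw [List.length_map] at hi hj
    rw [getD_toR, getD_toR] at hz1 hz2
    have n1 : ¬ (e.fst = d.fst ∧ e.snd = d.snd) := fun hh =>
      h1 (SimpleGraph.Dart.ext _ _ (Prod.ext hh.1 hh.2))
    have n2 : ¬ (e.fst = d.snd ∧ e.snd = d.fst) := fun hh =>
      h2 (SimpleGraph.Dart.ext _ _ (Prod.ext hh.1 hh.2))
    rcases h.cross _ _ d.adj _ _ e.adj n1 n2 i (by omega) j (by omega) with h3 | ⟨u, k1, k2, k3⟩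
    · exact (sep_sound h3 hz1 hz2).elim
    · refine ⟨u, ?_, ?_, touch_sound k3 hz1 hz2⟩
      · have : d.edge = s(d.fst, d.snd) := rfl
        rw [this, Sym2.mem_iff]
        exact k1
      · have : e.edge = s(e.fst, e.snd) := rfl
        rw [this, Sym2.mem_iff]
        exact k2
  rotation d e he hne := by
    have hw : e.snd ≠ d.snd := fun hh => hne (SimpleGraph.Dart.ext _ _ (Prod.ext he hh))
    have hadj : gr.Adj d.fst e.snd := by
      rw [← he]
      exact e.adj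
    have := h.rot _ _ d.adj e.snd hadj hw
    rw [he, getD_toR, getD_toR, getD_toR, direction_toR, direction_toR, direction_toR]
    exact this
  external := by
    have e0 : ((ch GG.outer.fst GG.outer.snd).map toR).getD 1 0 = toR ((ch 9 8).getD 1 0) := by
      rw [getD_toR]
      rfl
    rw [e0]
    have hm : midpoint ℝ (toR (pos GG.outer.fst)) (toR ((ch 9 8).getD 1 0)) =
        (1 / 2 : ℝ) • toR (pos 9 + (ch 9 8).getD 1 0) := by
      rw [midpoint_eq_smul_add]
      have : toR (pos 9 + (ch 9 8).getD 1 0) = toR (pos 9) + toR ((ch 9 8).getD 1 0) := by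
        unfold toR
        simp
      rw [this]
      norm_num
      rfl
    have hn : leftNormal (toR ((ch 9 8).getD 1 0) - toR (pos GG.outer.fst)) =
        toR (-((ch 9 8).getD 1 0 - pos 9).2, ((ch 9 8).getD 1 0 - pos 9).1) := by
      have : GG.outer.fst = 9 := rfl
      rw [this]
      unfold leftNormal toR
      simp
    rw [hm, hn]
    refine Filter.eventually_of_mem self_mem_nhdsWithin fun t ht => ?_
    refine ray_unbounded ?_ ?_ ht
    · rw [← toR_zero]
      intro h0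
      have h1 := toR_inj h0
      have h2 : ((ch 9 8).getD 1 0 - pos 9).2 = 0 := by
        exact neg_eq_zero.1 (congrArg Prod.fst h1)
      have h3 : ((ch 9 8).getD 1 0 - pos 9).1 = 0 := by
        exact congrArg Prod.snd h1
      have h98 : gr.Adj 9 8 := by decide
      have h4 := h.axis 9 8 h98 0 (by have := h.len 9 8 h98; omega)
      rw [h.start 9 8 h98] at h4
      rw [Prod.snd_sub, sub_eq_zero] at h2
      rw [Prod.fst_sub, sub_eq_zero] at h3
      rcases h4 with h4 | h4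
      · exact h4.2 h2.symm
      · exact h4.1 h3.symm
    · intro t ht hmem
      rcases hmem with ⟨v, hv⟩ | hmem
      · apply rayok_sound (h.ray' v) ht
        rw [← hv]
        exact left_mem_segment ℝ _ _
      · simp only [Set.mem_iUnion] at hmem
        obtain ⟨d, i, hi, hz⟩ := hmem
        rw [List.length_map] at hi
        rw [getD_toR, getD_toR] at hz
        exact rayok_sound (h.ray _ _ d.adj i (by omega)) ht hz

end Pool.Agent.N371.UB
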