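import Pool.Agent.N46.Turn4

/-!
# The rotation theorem (proved in `Pool.Agent.N46.Turn4`)
-/

set_option autoImplicit false

namespace Pool.Agent.N371.UB

theorem totalTurn_eq {ι : Type} [Fintype ι] {s : Equiv.Perm ι} {p : ι → ℝ × ℝ}
    (h : RectPoly s p) [Nonempty ι] :
    totalTurn s p = 4 ∨ totalTurn s p = -4 := Pool.Agent.N46.totalTurn_eq h

theorem totalTurn_outer {ι : Type} [Fintype ι] {s : Equiv.Perm ι} {p : ι → ℝ × ℝ}
    (h : RectPoly s p) (x : ι)
    (hx : ∀ ε > 0, ∃ t : ℝ, 0 < t ∧ t < ε ∧ ¬ Bornology.IsBounded (connectedComponentIn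
      (polySet s p)ᶜ (midpoint ℝ (p x) (p (s x)) + t • leftN (p (s x) - p x)))) :
    totalTurn s p = -4 := Pool.Agent.N46.totalTurn_outer h x hx

end Pool.Agent.N371.UB
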