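import Pool.Agent.N371.UB.Graph
import Pool.Agent.N371.UB.Hopf

/-!
# The face equations
-/

set_option autoImplicit false

namespace Pool.Agent.N371.UB

variable (D : Drawing GG)

lemma face_pm {k : ℕ} [NeZero k] (vs : Fin k → Fin 10)
    (h : ∀ j, gr.Adj (vs j) (vs (j + 1))) (h3 : 3 ≤ k) (hi : Function.Injective vs)
    (hn : ∀ j, nxt (vs (j + 1)) (vs (j + 1 + 1)) = vs j) :
    ∑ j, (TT D (vs j) (vs (j + 1)) + 2 - AA D (vs j) (vs (j + 1))) = 4 ∨
      ∑ j, (TT D (vs j) (vs (j + 1)) + 2 - AA D (vs j) (vs (j + 1))) = -4 := by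
  rw [← face_TT D vs h h3 hi hn]
  have : Nonempty (Blk k (fun j => D.bends (mkFace vs h j))) := ⟨⟨0, ⟨0, by omega⟩⟩⟩
  exact totalTurn_eq (face_rectPoly D (mkFace_cycle vs h h3 hi hn))

lemma face_outer {k : ℕ} [NeZero k] (vs : Fin k → Fin 10)
    (h : ∀ j, gr.Adj (vs j) (vs (j + 1))) (h3 : 3 ≤ k) (hi : Function.Injective vs)
    (hn : ∀ j, nxt (vs (j + 1)) (vs (j + 1 + 1)) = vs j) (j0 : Fin k) (h1 : vs j0 = 9)
    (h2 : vs (j0 + 1) = 8) :
    ∑ j, (TT D (vs j) (vs (j + 1)) + 2 - AA D (vs j) (vs (j + 1))) = -4 := by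
  rw [← face_TT D vs h h3 hi hn]
  have hc := mkFace_cycle vs h h3 hi hn
  have ho : mkFace vs h j0 = GG.outer := by
    apply SimpleGraph.Dart.ext
    exact Prod.ext h1 h2
  exact totalTurn_outer (face_rectPoly D hc) _ (outer_hyp D hc j0 ho)

lemma le_of_pm {a : ℤ} (h : a = 4 ∨ a = -4) : a ≤ 4 := by omega

lemma eqs : ∃ x : ℤ, 2 ≤ x ∧ x ≤ 6 ∧
      TT D 0 1 + TT D 1 2 - TT D 0 2 = 1 ∧
      TT D 0 2 + TT D 2 3 - TT D 0 3 = 1 ∧
      TT D 0 3 + TT D 3 4 + TT D 4 7 - TT D 0 7 = 0 ∧
      TT D 0 7 - TT D 1 7 - TT D 0 1 = 1 ∧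
      TT D 1 7 - TT D 6 7 - TT D 1 6 = 1 ∧
      TT D 1 6 + TT D 6 9 - TT D 8 9 - TT D 5 8 - TT D 2 5 - TT D 1 2 = -12 + x ∧
      TT D 2 5 - TT D 3 5 - TT D 2 3 = 1 ∧
      TT D 3 5 - TT D 4 5 - TT D 3 4 = 1 ∧
      TT D 4 5 + TT D 5 8 + TT D 8 9 - TT D 6 9 - TT D 4 6 = 5 - x ∧
      TT D 4 6 + TT D 6 7 - TT D 4 7 = 1 := by
  have f0 := face_pm D ![0, 1, 2] (by decide) (by decide) (by decide) (by decide)
  have f1 := face_pm D ![0, 2, 3] (by decide) (by decide) (by decide) (by decide)
  have f2 := face_pm D ![0, 3, 4, 7] (by decide) (by decide) (by decide) (by decide)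
  have f3 := face_pm D ![0, 7, 1] (by decide) (by decide) (by decide) (by decide)
  have f4 := face_pm D ![1, 7, 6] (by decide) (by decide) (by decide) (by decide)
  have f6 := face_pm D ![2, 5, 3] (by decide) (by decide) (by decide) (by decide)
  have f7 := face_pm D ![3, 5, 4] (by decide) (by decide) (by decide) (by decide)
  have f9 := face_pm D ![4, 6, 7] (by decide) (by decide) (by decide) (by decide)
  have f8 := face_pm D ![4, 5, 8, 9, 6] (by decide) (by decide) (by decide) (by decide)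
  have f5 := face_outer D ![1, 6, 9, 8, 5, 2] (by decide) (by decide) (by decide) (by decide)
    2 rfl rfl
  replace f0 := le_of_pm f0
  replace f1 := le_of_pm f1
  replace f2 := le_of_pm f2
  replace f3 := le_of_pm f3
  replace f4 := le_of_pm f4
  replace f6 := le_of_pm f6
  replace f7 := le_of_pm f7
  replace f8 := le_of_pm f8
  replace f9 := le_of_pm f9
  have s0 := TT_symm D 0 1
  have s1 := TT_symm D 0 2
  have s2 := TT_symm D 0 3
  have s3 := TT_symm D 0 7
  have s4 := TT_symm D 1 2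
  have s5 := TT_symm D 1 7
  have s6 := TT_symm D 1 6
  have s7 := TT_symm D 2 3
  have s8 := TT_symm D 2 5
  have s9 := TT_symm D 3 5
  have s10 := TT_symm D 3 4
  have s11 := TT_symm D 4 5
  have s12 := TT_symm D 4 6
  have s13 := TT_symm D 4 7
  have s14 := TT_symm D 5 8
  have s15 := TT_symm D 6 9
  have s16 := TT_symm D 6 7
  have s17 := TT_symm D 8 9
  have a01 := AA_four D 0 1 (by decide) (by decide)
  have a12 := AA_four D 1 2 (by decide) (by decide)
  have a20 := AA_four D 2 0 (by decide) (by decide)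
  have a02 := AA_four D 0 2 (by decide) (by decide)
  have a23 := AA_four D 2 3 (by decide) (by decide)
  have a30 := AA_four D 3 0 (by decide) (by decide)
  have a03 := AA_four D 0 3 (by decide) (by decide)
  have a34 := AA_four D 3 4 (by decide) (by decide)
  have a47 := AA_four D 4 7 (by decide) (by decide)
  have a70 := AA_four D 7 0 (by decide) (by decide)
  have a07 := AA_four D 0 7 (by decide) (by decide)
  have a71 := AA_four D 7 1 (by decide) (by decide)
  have a10 := AA_four D 1 0 (by decide) (by decide)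
  have a17 := AA_four D 1 7 (by decide) (by decide)
  have a76 := AA_four D 7 6 (by decide) (by decide)
  have a61 := AA_four D 6 1 (by decide) (by decide)
  have a16 := AA_four D 1 6 (by decide) (by decide)
  have a69 := AA_four D 6 9 (by decide) (by decide)
  have a52 := AA_four D 5 2 (by decide) (by decide)
  have a21 := AA_four D 2 1 (by decide) (by decide)
  have a25 := AA_four D 2 5 (by decide) (by decide)
  have a53 := AA_four D 5 3 (by decide) (by decide)
  have a32 := AA_four D 3 2 (by decide) (by decide)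
  have a35 := AA_four D 3 5 (by decide) (by decide)
  have a54 := AA_four D 5 4 (by decide) (by decide)
  have a43 := AA_four D 4 3 (by decide) (by decide)
  have a45 := AA_four D 4 5 (by decide) (by decide)
  have a58 := AA_four D 5 8 (by decide) (by decide)
  have a64 := AA_four D 6 4 (by decide) (by decide)
  have a46 := AA_four D 4 6 (by decide) (by decide)
  have a67 := AA_four D 6 7 (by decide) (by decide)
  have a74 := AA_four D 7 4 (by decide) (by decide)
  have p1 := AA_pos D 9 8 (by decide)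
  have p2 := AA_pos D 8 5 (by decide)
  have p3 := AA_pos D 8 9 (by decide)
  have p4 := AA_pos D 9 6 (by decide)
  have q1 := AA_two D 8 5 9 (by decide) (by decide) (by decide) (by decide)
  have q2 := AA_two D 9 8 6 (by decide) (by decide) (by decide) (by decide)
  simp only [Fin.sum_univ_succ, Finset.univ_unique, Fin.default_eq_zero, Finset.sum_singleton] at f0 f1 f2 f3 f4 f5 f6 f7 f8 f9
  simp at f0 f1 f2 f3 f4 f5 f6 f7 f8 f9
  refine ⟨AA D 9 8 + AA D 8 5, by omega, by omega, ?_, ?_, ?_, ?_, ?_, ?_, ?_, ?_, ?_, ?_⟩ <;>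
    linarith

end Pool.Agent.N371.UB
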