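import Pool.Agent.N371.UB.Chain
import Pool.Agent.N371.UB.Cyc

/-!
# The boundary polygon of a face
-/

set_option autoImplicit false

namespace Pool.Agent.N371.UB

variable {V : Type} {G : PlaneGraph V}

/-- The darts of a face boundary that is a cycle, with the face on the left. -/
structure FaceCycle (G : PlaneGraph V) (k : ℕ) [NeZero k] (f : Fin k → G.graph.Dart) : Prop where
  three : 3 ≤ k
  inj : Function.Injective (fun j => (f j).fst)
  next : ∀ j, G.nextDart (f (j + 1)) = (f j).symm

namespace FaceCycle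

variable {k : ℕ} [NeZero k] {f : Fin k → G.graph.Dart} (h : FaceCycle G k f)

include h

lemma snd_eq (j : Fin k) : (f j).snd = (f (j + 1)).fst := by
  have := congrArg (fun d : G.graph.Dart => d.fst) (h.next j)
  exact this.symm

lemma two_ne (j : Fin k) : j + 1 + 1 ≠ j := by
  intro hh
  have h3 := h.three
  have h1 := congrArg Fin.val hh
  simp only [Fin.val_add, Fin.val_one'] at h1
  have e1 : 1 % k = 1 := Nat.mod_eq_of_lt (by omega)
  rw [e1] at h1
  have hj := j.isLt
  rcases Nat.lt_or_ge (j.val + 1) k with h4 | h4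
  · rw [Nat.mod_eq_of_lt h4] at h1
    rcases Nat.lt_or_ge (j.val + 1 + 1) k with h5 | h5
    · rw [Nat.mod_eq_of_lt h5] at h1; omega
    · have : j.val + 1 + 1 = k := by omega
      rw [this, Nat.mod_self] at h1; omega
  · have : j.val + 1 = k := by omega
    rw [this, Nat.mod_self, Nat.zero_add, e1] at h1
    omega

lemma succ_ne (j : Fin k) : j + 1 ≠ j := by
  intro hh
  exact h.two_ne j (by rw [hh, hh])

lemma dart_ne {j j' : Fin k} (hj : j ≠ j') : f j' ≠ f j := by
  intro hh
  exact hj (h.inj (by simp only [hh]))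

lemma dart_ne_symm (j j' : Fin k) : f j' ≠ (f j).symm := by
  intro hh
  have h1 : (f j').fst = (f (j + 1)).fst := by
    rw [hh, ← h.snd_eq]
    rfl
  have h2 : j' = j + 1 := h.inj h1
  have h3 : (f (j' + 1)).fst = (f j).fst := by
    rw [← h.snd_eq, hh]
    rfl
  have h4 : j' + 1 = j := h.inj h3
  rw [h2] at h4
  exact h.two_ne j h4

lemma common {j j' : Fin k} (hj : j ≠ j') {w : V} (h1 : w ∈ (f j).edge) (h2 : w ∈ (f j').edge) :
    (j' = j + 1 ∧ w = (f j).snd) ∨ (j = j' + 1 ∧ w = (f j').snd) := by
  have h1' : w = (f j).fst ∨ w = (f j).snd := by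
    have : (f j).edge = s((f j).fst, (f j).snd) := rfl
    rw [this, Sym2.mem_iff] at h1
    exact h1
  have h2' : w = (f j').fst ∨ w = (f j').snd := by
    have : (f j').edge = s((f j').fst, (f j').snd) := rfl
    rw [this, Sym2.mem_iff] at h2
    exact h2
  rcases h1' with a | a <;> rcases h2' with b | b
  · exact absurd (h.inj (show (f j).fst = (f j').fst by rw [← a, b])) hj
  · right
    refine ⟨h.inj (show (f j).fst = (f (j' + 1)).fst by rw [← a, b, h.snd_eq]), b⟩
  · left
    refine ⟨h.inj (show (f j').fst = (f (j + 1)).fst by rw [← b, a, h.snd_eq]), a⟩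
  · exfalso
    have : j + 1 = j' + 1 := h.inj (show (f (j + 1)).fst = (f (j' + 1)).fst by
      rw [← h.snd_eq, ← h.snd_eq, ← a, b])
    exact hj (add_right_cancel this)

variable (D : Drawing G)

lemma meet {j j' : Fin k} (hj : j ≠ j') {i i' : ℕ} (hi : i ≤ D.bends (f j))
    (hi' : i' ≤ D.bends (f j')) {z : ℝ × ℝ}
    (h1 : z ∈ segment ℝ (pt D (f j) i) (pt D (f j) (i + 1)))
    (h2 : z ∈ segment ℝ (pt D (f j') i') (pt D (f j') (i' + 1))) :
    (j' = j + 1 ∧ i = D.bends (f j) ∧ i' = 0 ∧ z = D.pos (f j).snd) ∨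
      (j = j' + 1 ∧ i' = D.bends (f j') ∧ i = 0 ∧ z = D.pos (f j').snd) := by
  obtain ⟨w, hw1, hw2, hz⟩ := D.cross (f j) (f j') i i' (h.dart_ne hj) (h.dart_ne_symm j j')
    (by rw [length_eq]; omega) (by rw [length_eq]; omega) z h1 h2
  rcases h.common hj hw1 hw2 with ⟨ha, hb⟩ | ⟨ha, hb⟩
  · left
    subst hb
    refine ⟨ha, last_mem D _ i hi (hz ▸ h1), first_mem D _ i' hi' ?_, hz⟩
    rw [ha, ← h.snd_eq, ← ha, ← hz]
    exact h2
  · right
    subst hb
    refine ⟨ha, last_mem D _ i' hi' (hz ▸ h2), first_mem D _ i hi ?_, hz⟩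
    rw [ha, ← h.snd_eq, ← ha, ← hz]
    exact h1

end FaceCycle

/-- the boundary polygon of a face -/
noncomputable def facePt (D : Drawing G) {k : ℕ} [NeZero k] (f : Fin k → G.graph.Dart)
    (x : Blk k (fun j => D.bends (f j))) : ℝ × ℝ := pt D (f x.1) x.2.val

variable (D : Drawing G) {k : ℕ} [NeZero k] {f : Fin k → G.graph.Dart} (h : FaceCycle G k f)

omit [NeZero k] in
lemma blk_le (x : Blk k (fun j => D.bends (f j))) : x.2.val ≤ D.bends (f x.1) :=
  Nat.lt_succ_iff.1 x.2.isLt

include h

lemma facePt_sx (x : Blk k (fun j => D.bends (f j))) :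
    facePt D f (sx _ x) = pt D (f x.1) (x.2.val + 1) := by
  obtain ⟨j, i, hi⟩ := x
  replace hi : i < D.bends (f j) + 1 := hi
  rcases Nat.lt_or_ge i (D.bends (f j)) with h1 | h1
  · rw [sx_lt (fun j => D.bends (f j)) j i h1]
    rfl
  · have h2 : i = D.bends (f j) := by omega
    subst h2
    rw [sx_last (fun j => D.bends (f j)) j]
    change pt D (f (j + 1)) 0 = pt D (f j) (D.bends (f j) + 1)
    rw [pt_zero, pt_last, h.snd_eq]

lemma face_rectPoly : RectPoly (sx (fun j => D.bends (f j))) (facePt D f) := by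
  constructor
  · exact sx_cyc _
  · intro x
    rw [facePt_sx D h]
    exact pt_ne D _ _ (blk_le D x)
  · intro x
    rw [facePt_sx D h]
    rcases pt_axis D (f x.1) x.2.val (blk_le D x) with h' | h'
    · exact Or.inl h'.1
    · exact Or.inr h'.2
  · intro x z h1 h2
    rw [facePt_sx D h] at h1 h2 ⊢
    rw [facePt_sx D h] at h2
    obtain ⟨j, i, hi⟩ := x
    replace hi : i < D.bends (f j) + 1 := hi
    change z ∈ segment ℝ (pt D (f j) i) (pt D (f j) (i + 1)) at h1
    change z = pt D (f j) (i + 1)
    rcases Nat.lt_or_ge i (D.bends (f j)) with h3 | h3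
    · rw [sx_lt (fun j => D.bends (f j)) j i h3] at h2
      exact pt_adj D (f j) i h3 z h1 h2
    · have h4 : i = D.bends (f j) := by omega
      subst h4
      rw [sx_last (fun j => D.bends (f j)) j] at h2
      change z ∈ segment ℝ (pt D (f j) (D.bends (f j) + 1)) (pt D (f (j + 1)) (0 + 1)) at h2
      rw [pt_last, h.snd_eq, ← pt_zero] at h2
      rcases h.meet D (h.succ_ne j).symm le_rfl (Nat.zero_le _) h1 h2 with h5 | h5
      · rw [h5.2.2.2, pt_last]
      · exact absurd h5.1.symm (h.two_ne j)
  · intro x y hyx hyx' hxy'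
    rw [facePt_sx D h, facePt_sx D h]
    obtain ⟨j, i, hi⟩ := x
    obtain ⟨j', i', hi'⟩ := y
    replace hi : i < D.bends (f j) + 1 := hi
    replace hi' : i' < D.bends (f j') + 1 := hi'
    change Disjoint (segment ℝ (pt D (f j) i) (pt D (f j) (i + 1)))
      (segment ℝ (pt D (f j') i') (pt D (f j') (i' + 1)))
    by_cases hj : j = j'
    · subst hj
      have e1 : i ≠ i' := by
        rintro rfl
        exact hyx rfl
      have e2 : i' ≠ i + 1 := by
        rintro rfl
        exact hyx' (sx_lt (fun j => D.bends (f j)) j i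
          (show i < D.bends (f j) by omega)).symm
      have e3 : i ≠ i' + 1 := by
        rintro rfl
        exact hxy' (sx_lt (fun j => D.bends (f j)) j i'
          (show i' < D.bends (f j) by omega)).symm
      rcases Nat.lt_or_ge i i' with h4 | h4
      · exact pt_simple D (f j) i i' (by omega) (by omega)
      · exact (pt_simple D (f j) i' i (by omega) (by omega)).symm
    · rw [Set.disjoint_left]
      intro z h1 h2
      rcases h.meet D hj (by omega) (by omega) h1 h2 with ⟨a, b, c, -⟩ | ⟨a, b, c, -⟩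
      · subst b
        subst c
        subst a
        exact hyx' (sx_last (fun j => D.bends (f j)) j).symm
      · subst b
        subst c
        subst a
        exact hxy' (sx_last (fun j => D.bends (f j)) j').symm

/-- The turn at the common vertex of two consecutive darts `d`, `e` of a face. -/
noncomputable def corner (D : Drawing G) (d e : G.graph.Dart) : ℤ :=
  turn (pt D d (D.bends d + 1) - pt D d (D.bends d)) (pt D e 1 - pt D e 0)

lemma face_totalTurn : totalTurn (sx (fun j => D.bends (f j))) (facePt D f) =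
    ∑ j, (tt D (f j) + corner D (f j) (f (j + 1))) := by
  unfold totalTurn
  rw [sum_blk]
  refine Finset.sum_congr rfl fun j _ => ?_
  congr 1
  · unfold tt
    rw [Finset.sum_range]
    refine Finset.sum_congr rfl fun i _ => ?_
    rw [facePt_sx D h, facePt_sx D h, sx_lt (fun j => D.bends (f j)) j i.val i.isLt]
    rfl
  · rw [facePt_sx D h, facePt_sx D h, sx_last (fun j => D.bends (f j)) j]
    unfold corner
    have e1 : pt D (f j) (D.bends (f j) + 1) = pt D (f (j + 1)) 0 := by
      rw [pt_zero, pt_last, h.snd_eq]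
    change turn (pt D (f j) (D.bends (f j) + 1) - pt D (f j) (D.bends (f j)))
      (pt D (f (j + 1)) (0 + 1) - pt D (f j) (D.bends (f j) + 1)) = _
    rw [e1]

end Pool.Agent.N371.UB
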