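import Pool.Agent.N371.UB.Vertex

/-!
# The plane graph of the counterexample
-/

set_option autoImplicit false

namespace Pool.Agent.N371.UB

/-- Neighbours in counterclockwise order. -/
def rotL : Fin 10 → List (Fin 10) :=
  ![[1, 2, 3, 7], [2, 0, 7, 6], [3, 0, 1, 5], [0, 2, 5, 4], [3, 5, 6, 7], [4, 3, 2, 8],
    [4, 9, 1, 7], [6, 1, 0, 4], [5, 9], [8, 6]]

/-- The graph. -/
def gr : SimpleGraph (Fin 10) where
  Adj v w := w ∈ rotL v
  symm := ⟨by decide⟩
  loopless := ⟨by decide⟩

instance : DecidableRel gr.Adj := fun v w => inferInstanceAs (Decidable (w ∈ rotL v))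

/-- The neighbour that follows. -/
def nxt (v w : Fin 10) : Fin 10 :=
  (rotL v).getD (((rotL v).idxOf w + 1) % (rotL v).length) w

lemma nxt_adj : ∀ v w, gr.Adj v w → gr.Adj v (nxt v w) := by decide

lemma nxt_cyc' : ∀ v w w', gr.Adj v w → gr.Adj v w' → ∃ n : Fin 4, (nxt v)^[n] w = w' := by
  decide

lemma gr_connected : gr.Connected := by
  have key : ∀ v, gr.Reachable 0 v := by
    have a1 : gr.Adj 0 1 := by decide
    have a2 : gr.Adj 0 2 := by decide
    have a3 : gr.Adj 0 3 := by decide
    have a7 : gr.Adj 0 7 := by decide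
    have a4 : gr.Adj 3 4 := by decide
    have a5 : gr.Adj 3 5 := by decide
    have a6 : gr.Adj 1 6 := by decide
    have a8 : gr.Adj 5 8 := by decide
    have a9 : gr.Adj 6 9 := by decide
    have r3 := a3.reachable
    have r1 := a1.reachable
    have r5 := r3.trans a5.reachable
    have r6 := r1.trans a6.reachable
    intro v
    fin_cases v
    · exact SimpleGraph.Reachable.refl _
    · exact r1
    · exact a2.reachable
    · exact r3
    · exact r3.trans a4.reachable
    · exact r5
    · exact r6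
    · exact a7.reachable
    · exact r5.trans a8.reachable
    · exact r6.trans a9.reachable
  have : Nonempty (Fin 10) := ⟨0⟩
  exact ⟨fun u v => (key u).symm.trans (key v)⟩

lemma gr_degree (v : Fin 10) : (gr.neighborSet v).encard ≤ 4 := by
  have h1 : gr.neighborSet v = ((rotL v).toFinset : Set (Fin 10)) := by
    ext w
    simp only [SimpleGraph.mem_neighborSet, List.coe_toFinset, Set.mem_ofPred_eq]
    exact Iff.rfl
  rw [h1, Set.encard_coe_eq_coe_finsetCard]
  have h2 : ∀ v, (rotL v).toFinset.card ≤ 4 := by decide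
  exact_mod_cast h2 v

/-- The plane graph. -/
def GG : PlaneGraph (Fin 10) where
  graph := gr
  connected := gr_connected
  degree_le := gr_degree
  next := nxt
  next_adj := nxt_adj
  next_cyc := fun v w w' h h' => by
    obtain ⟨n, hn⟩ := nxt_cyc' v w w' h h'
    exact ⟨n, hn⟩
  outer := ⟨(9, 8), by decide⟩

/-- The dart with given ends. -/
def dt (v w : Fin 10) (h : gr.Adj v w) : GG.graph.Dart := ⟨(v, w), h⟩

variable (D : Drawing GG)

/-- turning of the dart with given ends -/
noncomputable def TT (v w : Fin 10) : ℤ := if h : gr.Adj v w then tt D (dt v w h) else 0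

/-- angle after the dart with given ends -/
noncomputable def AA (v w : Fin 10) : ℤ := if h : gr.Adj v w then ang D (dt v w h) else 0

/-- bends of the dart with given ends -/
def BB (v w : Fin 10) : ℕ := if h : gr.Adj v w then D.bends (dt v w h) else 0

lemma gr_adj_symm {v w : Fin 10} (h : gr.Adj v w) : gr.Adj w v := h.symm

lemma TT_symm (v w : Fin 10) : TT D w v = - TT D v w := by
  unfold TT
  by_cases h : gr.Adj v w
  · rw [dif_pos h, dif_pos h.symm, ← tt_symm]
    rfl
  · rw [dif_neg h, dif_neg (fun h' => h h'.symm)]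
    rfl

lemma BB_symm (v w : Fin 10) : BB D w v = BB D v w := by
  unfold BB
  by_cases h : gr.Adj v w
  · rw [dif_pos h, dif_pos h.symm, ← bends_symm]
    rfl
  · rw [dif_neg h, dif_neg (fun h' => h h'.symm)]

lemma TT_le (v w : Fin 10) : |TT D v w| ≤ BB D v w := by
  unfold TT BB
  by_cases h : gr.Adj v w
  · rw [dif_pos h, dif_pos h]
    exact tt_abs_le D _
  · rw [dif_neg h, dif_neg h]
    simp

lemma nxt_ne : ∀ v w, gr.Adj v w → nxt v w ≠ w := by decide

lemma nextDart_ne (v w : Fin 10) (h : gr.Adj v w) : GG.nextDart (dt v w h) ≠ dt v w h := by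
  intro h'
  have : nxt v w = w := congrArg (fun d : GG.graph.Dart => d.snd) h'
  exact nxt_ne v w h this

lemma AA_pos (v w : Fin 10) (h : gr.Adj v w) : 1 ≤ AA D v w := by
  unfold AA
  rw [dif_pos h]
  exact ang_pos D _ (nextDart_ne v w h)

lemma AA_four (v w : Fin 10) (h : gr.Adj v w) (hv : v < 8) : AA D v w = 1 := by
  unfold AA
  rw [dif_pos h]
  have hl : ∀ v : Fin 10, v < 8 → (rotL v).length = 4 := by decide
  have hnd : ∀ v : Fin 10, (rotL v).Nodup := by decide
  have hlv := hl v hv
  have hlt : ∀ i : Fin 4, i.val < (rotL v).length := fun i => by rw [hlv]; exact i.isLt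
  refine ang_four D _ (fun i => dt v ((rotL v)[i.val]'(hlt i)) (List.getElem_mem _)) ?_ ?_
    (nextDart_ne v w h)
  · intro i j hij
    have h1 : (rotL v)[i.val]'(hlt i) = (rotL v)[j.val]'(hlt j) :=
      congrArg (fun d : GG.graph.Dart => d.snd) hij
    exact Fin.ext ((List.Nodup.getElem_inj_iff (hnd v)).1 h1)
  · intro i
    rfl

lemma AA_two (v w w' : Fin 10) (h : gr.Adj v w) (h' : gr.Adj v w') (h1 : nxt v w = w')
    (h2 : nxt v w' = w) : AA D v w + AA D v w' = 4 := by
  subst h1
  unfold AA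
  rw [dif_pos h, dif_pos h']
  have h3 : GG.nextDart (GG.nextDart (dt v w h)) = dt v w h := by
    apply SimpleGraph.Dart.ext
    exact Prod.ext rfl h2
  exact ang_two D (dt v w h) (nextDart_ne v w h) h3

/-- darts of a closed walk -/
def mkFace {k : ℕ} [NeZero k] (vs : Fin k → Fin 10) (h : ∀ j, gr.Adj (vs j) (vs (j + 1))) :
    Fin k → GG.graph.Dart := fun j => dt (vs j) (vs (j + 1)) (h j)

lemma mkFace_cycle {k : ℕ} [NeZero k] (vs : Fin k → Fin 10)
    (h : ∀ j, gr.Adj (vs j) (vs (j + 1))) (h3 : 3 ≤ k) (hi : Function.Injective vs)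
    (hn : ∀ j, nxt (vs (j + 1)) (vs (j + 1 + 1)) = vs j) : FaceCycle GG k (mkFace vs h) where
  three := h3
  inj := hi
  next := fun j => by
    apply SimpleGraph.Dart.ext
    exact Prod.ext rfl (hn j)

lemma face_TT {k : ℕ} [NeZero k] (vs : Fin k → Fin 10)
    (h : ∀ j, gr.Adj (vs j) (vs (j + 1))) (h3 : 3 ≤ k) (hi : Function.Injective vs)
    (hn : ∀ j, nxt (vs (j + 1)) (vs (j + 1 + 1)) = vs j) :
    totalTurn (sx (fun j => D.bends (mkFace vs h j))) (facePt D (mkFace vs h)) =
      ∑ j, (TT D (vs j) (vs (j + 1)) + 2 - AA D (vs j) (vs (j + 1))) := by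
  rw [face_eq D (mkFace_cycle vs h h3 hi hn)]
  refine Finset.sum_congr rfl fun j _ => ?_
  unfold TT AA
  rw [dif_pos (h j), dif_pos (h j)]
  rfl

end Pool.Agent.N371.UB
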