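import Mathlib

/-!
# Simple closed axis-parallel polygons and their total turning (statements)

A closed polygon is given by a finite cyclically ordered index set: a type `ι` with a permutation
`s` that is one cycle, and a point `p x` for every `x : ι`; its sides are the segments from `p x`
to `p (s x)`.
-/

set_option autoImplicit false

namespace Pool.Agent.N371.UB

open scoped Topology

/-- The turn between two consecutive directions `u` and `w`: `1` for a left turn, `-1` for a right
turn, `0` for no turn. -/
noncomputable def turn (u w : ℝ × ℝ) : ℤ := (SignType.sign (u.1 * w.2 - u.2 * w.1) : ℤ)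

/-- A simple closed polygon with axis-parallel sides. -/
structure RectPoly {ι : Type} (s : Equiv.Perm ι) (p : ι → ℝ × ℝ) : Prop where
  /-- the index set is one cycle of `s` -/
  cyc : ∀ x y, ∃ n : ℕ, (s ^ n) x = y
  /-- sides are nondegenerate -/
  ne : ∀ x, p x ≠ p (s x)
  /-- sides are axis-parallel -/
  ax : ∀ x, (p x).1 = (p (s x)).1 ∨ (p x).2 = (p (s x)).2
  /-- consecutive sides meet only in the common corner -/
  adj : ∀ x z, z ∈ segment ℝ (p x) (p (s x)) → z ∈ segment ℝ (p (s x)) (p (s (s x))) →
    z = p (s x)
  /-- other sides are disjoint -/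
  disj : ∀ x y, y ≠ x → y ≠ s x → x ≠ s y →
    Disjoint (segment ℝ (p x) (p (s x))) (segment ℝ (p y) (p (s y)))

/-- The total turning (in quarter turns, counterclockwise positive). -/
noncomputable def totalTurn {ι : Type} [Fintype ι] (s : Equiv.Perm ι) (p : ι → ℝ × ℝ) : ℤ :=
  ∑ x, turn (p (s x) - p x) (p (s (s x)) - p (s x))

/-- The point set of the polygon. -/
def polySet {ι : Type} (s : Equiv.Perm ι) (p : ι → ℝ × ℝ) : Set (ℝ × ℝ) :=
  ⋃ x, segment ℝ (p x) (p (s x))

/-- The vector `u` turned left by a quarter turn. -/
def leftN (u : ℝ × ℝ) : ℝ × ℝ := (-u.2, u.1)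

end Pool.Agent.N371.UB
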