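import Pool.Agent.N371.UB.Face

/-!
# Directions and angles at the vertices
-/

set_option autoImplicit false

namespace Pool.Agent.N371.UB

lemma direction_cases {u : ℝ × ℝ} (hu : (u.1 = 0 ∧ u.2 ≠ 0) ∨ (u.1 ≠ 0 ∧ u.2 = 0)) :
    ∃ a : ℝ, 0 < a ∧ ((direction u = 0 ∧ u = (a, 0)) ∨ (direction u = 1 ∧ u = (0, a)) ∨
      (direction u = 2 ∧ u = (-a, 0)) ∨ (direction u = 3 ∧ u = (0, -a))) := by
  obtain ⟨x, y⟩ := u
  simp only at hu
  rcases hu with ⟨rfl, h⟩ | ⟨h, rfl⟩
  · rcases lt_or_gt_of_ne h with h | h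
    · refine ⟨-y, by linarith, Or.inr (Or.inr (Or.inr ⟨?_, by simp⟩))⟩
      simp only [direction]
      rw [if_neg (lt_irrefl _), if_neg (by linarith), if_neg (lt_irrefl _)]
    · refine ⟨y, h, Or.inr (Or.inl ⟨?_, rfl⟩)⟩
      simp only [direction]
      rw [if_neg (lt_irrefl _), if_pos h]
  · rcases lt_or_gt_of_ne h with h | h
    · refine ⟨-x, by linarith, Or.inr (Or.inr (Or.inl ⟨?_, by simp⟩))⟩
      simp only [direction]
      rw [if_neg (by linarith), if_neg (lt_irrefl _), if_pos h]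
    · refine ⟨x, h, Or.inl ⟨?_, rfl⟩⟩
      simp only [direction]
      rw [if_pos h]

lemma turn_dir {u w : ℝ × ℝ} (hu : (u.1 = 0 ∧ u.2 ≠ 0) ∨ (u.1 ≠ 0 ∧ u.2 = 0))
    (hw : (w.1 = 0 ∧ w.2 ≠ 0) ∨ (w.1 ≠ 0 ∧ w.2 = 0)) (hne : direction u ≠ direction w) :
    turn (-u) w = 2 - ((direction u - direction w).val : ℤ) := by
  obtain ⟨a, ha, hu'⟩ := direction_cases hu
  obtain ⟨b, hb, hw'⟩ := direction_cases hw
  have hab : 0 < a * b := mul_pos ha hb
  have v12 : ((1 - 2 : ZMod 4).val : ℤ) = 3 := rfl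
  have v13 : ((1 - 3 : ZMod 4).val : ℤ) = 2 := rfl
  have v21 : ((2 - 1 : ZMod 4).val : ℤ) = 1 := rfl
  have v23 : ((2 - 3 : ZMod 4).val : ℤ) = 3 := rfl
  have v31 : ((3 - 1 : ZMod 4).val : ℤ) = 2 := rfl
  have v32 : ((3 - 2 : ZMod 4).val : ℤ) = 1 := rfl
  have hs1 : SignType.sign (a * b) = 1 := sign_pos hab
  have hs2 : SignType.sign (-(a * b)) = -1 := sign_neg (by linarith)
  rcases hu' with ⟨h1, h2⟩ | ⟨h1, h2⟩ | ⟨h1, h2⟩ | ⟨h1, h2⟩ <;>
  rcases hw' with ⟨h3, h4⟩ | ⟨h3, h4⟩ | ⟨h3, h4⟩ | ⟨h3, h4⟩ <;>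
  first
  | exact absurd (h1.trans h3.symm) hne
  | (rw [h1, h3]
     unfold turn
     rw [h2, h4]
     simp only [Prod.fst_neg, Prod.snd_neg, neg_neg, neg_zero, mul_zero, zero_mul, sub_zero,
       zero_sub, sub_self, neg_mul, mul_neg]
     simp only [hs1, hs2, sign_zero, v12, v13, v21, v23, v31, v32]
     decide)

variable {V : Type} {G : PlaneGraph V} (D : Drawing G)

/-- the vector of the first side -/
noncomputable def dv (d : G.graph.Dart) : ℝ × ℝ := pt D d 1 - D.pos d.fst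

/-- the direction in which a dart leaves its start -/
noncomputable def dir (d : G.graph.Dart) : ZMod 4 := direction (dv D d)

lemma dv_axis (d : G.graph.Dart) :
    ((dv D d).1 = 0 ∧ (dv D d).2 ≠ 0) ∨ ((dv D d).1 ≠ 0 ∧ (dv D d).2 = 0) := by
  unfold dv
  rw [← pt_zero]
  rcases pt_axis D d 0 (Nat.zero_le _) with ⟨h1, h2⟩ | ⟨h1, h2⟩
  · left
    rw [Prod.fst_sub, Prod.snd_sub]
    exact ⟨sub_eq_zero.2 h1.symm, fun h => h2 (sub_eq_zero.1 h).symm⟩
  · right
    rw [Prod.fst_sub, Prod.snd_sub]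
    exact ⟨fun h => h1 (sub_eq_zero.1 h).symm, sub_eq_zero.2 h2.symm⟩

/-- vectors of equal direction are positive multiples of one vector -/
lemma direction_eq {u w : ℝ × ℝ} (hu : (u.1 = 0 ∧ u.2 ≠ 0) ∨ (u.1 ≠ 0 ∧ u.2 = 0))
    (hw : (w.1 = 0 ∧ w.2 ≠ 0) ∨ (w.1 ≠ 0 ∧ w.2 = 0)) (h : direction u = direction w) :
    ∃ (E : ℝ × ℝ) (a b : ℝ), E ≠ 0 ∧ 0 < a ∧ 0 < b ∧ u = a • E ∧ w = b • E := by
  obtain ⟨a, ha, hu'⟩ := direction_cases hu
  obtain ⟨b, hb, hw'⟩ := direction_cases hw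
  have n01 : (0 : ZMod 4) ≠ 1 := by decide
  have n02 : (0 : ZMod 4) ≠ 2 := by decide
  have n03 : (0 : ZMod 4) ≠ 3 := by decide
  have n12 : (1 : ZMod 4) ≠ 2 := by decide
  have n13 : (1 : ZMod 4) ≠ 3 := by decide
  have n23 : (2 : ZMod 4) ≠ 3 := by decide
  rcases hu' with ⟨h1, h2⟩ | ⟨h1, h2⟩ | ⟨h1, h2⟩ | ⟨h1, h2⟩ <;>
  rcases hw' with ⟨h3, h4⟩ | ⟨h3, h4⟩ | ⟨h3, h4⟩ | ⟨h3, h4⟩ <;>
  rw [h1, h3] at h
  · exact ⟨(1, 0), a, b, by simp, ha, hb, by simp [h2], by simp [h4]⟩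
  · exact absurd h n01
  · exact absurd h n02
  · exact absurd h n03
  · exact absurd h.symm n01
  · exact ⟨(0, 1), a, b, by simp, ha, hb, by simp [h2], by simp [h4]⟩
  · exact absurd h n12
  · exact absurd h n13
  · exact absurd h.symm n02
  · exact absurd h.symm n12
  · exact ⟨(-1, 0), a, b, by simp, ha, hb, by simp [h2], by simp [h4]⟩
  · exact absurd h n23
  · exact absurd h.symm n03
  · exact absurd h.symm n13
  · exact absurd h.symm n23
  · exact ⟨(0, -1), a, b, by simp, ha, hb, by simp [h2], by simp [h4]⟩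

lemma mem_first (d : G.graph.Dart) {E : ℝ × ℝ} {a c : ℝ} (ha : 0 < a) (hc : 0 < c) (hca : c ≤ a)
    (h : dv D d = a • E) : D.pos d.fst + c • E ∈ segment ℝ (pt D d 0) (pt D d 1) := by
  have h1 : pt D d 1 = D.pos d.fst + a • E := by
    rw [← h]
    unfold dv
    rw [add_sub_cancel]
  rw [h1, pt_zero, segment_eq_image']
  refine ⟨c / a, ⟨by positivity, by rw [div_le_one ha]; exact hca⟩, ?_⟩
  change D.pos d.fst + (c / a) • (D.pos d.fst + a • E - D.pos d.fst) = D.pos d.fst + c • E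
  rw [add_sub_cancel_left, smul_smul, div_mul_cancel₀ _ ha.ne']

lemma dir_ne {d e : G.graph.Dart} (hf : e.fst = d.fst) (hne : e ≠ d) : dir D d ≠ dir D e := by
  intro h
  obtain ⟨E, a, b, hE, ha, hb, h1, h2⟩ := direction_eq (dv_axis D d) (dv_axis D e) h
  have hc : 0 < min a b := lt_min ha hb
  have m1 := mem_first D d ha hc (min_le_left _ _) h1
  have m2 := mem_first D e hb hc (min_le_right _ _) h2
  rw [hf] at m2
  have hsy : e ≠ d.symm := by
    intro h3
    have : e.fst = d.snd := by rw [h3]; rfl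
    exact d.adj.ne (hf.symm.trans this)
  obtain ⟨w, hw1, hw2, hz⟩ := D.cross d e 0 0 hne hsy (by rw [length_eq]; omega)
    (by rw [length_eq]; omega) _ m1 m2
  have k1 : w = d.fst ∨ w = d.snd := by
    have : d.edge = s(d.fst, d.snd) := rfl
    rw [this, Sym2.mem_iff] at hw1
    exact hw1
  have k2 : w = e.fst ∨ w = e.snd := by
    have : e.edge = s(e.fst, e.snd) := rfl
    rw [this, Sym2.mem_iff] at hw2
    exact hw2
  have hv : ∀ w, w = d.fst → D.pos d.fst + min a b • E ≠ D.pos w := by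
    intro w hw h3
    rw [hw] at h3
    have h4 : min a b • E = 0 := by
      have := sub_eq_zero.2 h3
      rwa [add_sub_cancel_left] at this
    rcases smul_eq_zero.1 h4 with h5 | h5
    · exact hc.ne' h5
    · exact hE h5
  rcases k1 with k1 | k1
  · exact hv w k1 hz
  · rcases k2 with k2 | k2
    · exact hv w (k2.trans hf) hz
    · apply hne
      have h6 : e.toProd = d.toProd := Prod.ext hf (k2.symm.trans k1)
      exact SimpleGraph.Dart.ext _ _ h6

/-- The angle (in quarter turns) from a dart to the next one in counterclockwise order. -/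
noncomputable def ang (d : G.graph.Dart) : ℤ := ((dir D (G.nextDart d) - dir D d).val : ℤ)

lemma ang_pos (d : G.graph.Dart) (h : G.nextDart d ≠ d) : 1 ≤ ang D d := by
  have h1 : dir D d ≠ dir D (G.nextDart d) := dir_ne D rfl h
  unfold ang
  have h2 : (dir D (G.nextDart d) - dir D d).val ≠ 0 := by
    intro h3
    exact h1 (sub_eq_zero.1 ((ZMod.val_eq_zero _).1 h3)).symm
  have : 1 ≤ (dir D (G.nextDart d) - dir D d).val := Nat.one_le_iff_ne_zero.2 h2
  exact_mod_cast this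

lemma ang_four (d : G.graph.Dart) (g : Fin 4 → G.graph.Dart) (hg : Function.Injective g)
    (hf : ∀ i, (g i).fst = d.fst) (hd : G.nextDart d ≠ d) : ang D d = 1 := by
  have hinj : Function.Injective (fun i => dir D (g i)) := by
    intro i j hij
    by_contra hne
    exact dir_ne D (d := g i) (e := g j) ((hf j).trans (hf i).symm)
      (fun h => hne (hg h).symm) hij
  have hbij : Function.Bijective (fun i => dir D (g i)) := by
    rw [Fintype.bijective_iff_injective_and_card]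
    exact ⟨hinj, by simp⟩
  obtain ⟨i, hi⟩ := hbij.2 (dir D d + 1)
  simp only at hi
  have hne : g i ≠ d := by
    intro h
    rw [h] at hi
    rw [left_eq_add] at hi
    exact absurd hi (by decide)
  have hr := D.rotation d (g i) (hf i) hne
  have h1 : (dir D (G.nextDart d) - dir D d).val ≤ (dir D (g i) - dir D d).val := by
    unfold dir dv
    rw [hf i]
    exact hr
  rw [hi, add_sub_cancel_left] at h1
  have h2 : (1 : ZMod 4).val = 1 := rfl
  rw [h2] at h1
  have h3 := ang_pos D d hd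
  unfold ang at h3 ⊢
  have : ((dir D (G.nextDart d) - dir D d).val : ℤ) ≤ 1 := by exact_mod_cast h1
  omega

lemma ang_two (d : G.graph.Dart) (h1 : G.nextDart d ≠ d) (h2 : G.nextDart (G.nextDart d) = d) :
    ang D d + ang D (G.nextDart d) = 4 := by
  have h3 : dir D d ≠ dir D (G.nextDart d) := dir_ne D rfl h1
  unfold ang
  rw [h2]
  have key : ∀ a b : ZMod 4, a ≠ b → ((b - a).val : ℤ) + ((a - b).val : ℤ) = 4 := by decide
  exact key _ _ h3

lemma corner_eq (d e : G.graph.Dart) (h : G.nextDart e = d.symm) (hne : G.nextDart e ≠ e) :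
    corner D d e = 2 - ang D e := by
  unfold corner
  have e1 : pt D d (D.bends d + 1) - pt D d (D.bends d) = - dv D d.symm := by
    unfold dv
    have a1 := pt_symm D d 0 (by omega)
    have a2 := pt_symm D d 1 (by omega)
    rw [Nat.sub_zero] at a1
    rw [Nat.add_sub_cancel] at a2
    rw [← a1, ← a2, ← pt_zero, neg_sub]
  have e2 : pt D e 1 - pt D e 0 = dv D e := by
    unfold dv
    rw [pt_zero]
  rw [e1, e2, ← h]
  have h3 : dir D e ≠ dir D (G.nextDart e) := dir_ne D rfl hne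
  exact turn_dir (dv_axis D _) (dv_axis D _) h3.symm

/-- The equation of a face. -/
lemma face_eq {k : ℕ} [NeZero k] {f : Fin k → G.graph.Dart} (h : FaceCycle G k f) :
    totalTurn (sx (fun j => D.bends (f j))) (facePt D f) =
      ∑ j, (tt D (f j) + 2 - ang D (f j)) := by
  rw [face_totalTurn D h]
  have h1 : ∀ j, corner D (f j) (f (j + 1)) = 2 - ang D (f (j + 1)) := by
    intro j
    apply corner_eq D _ _ (h.next j)
    rw [h.next j]
    exact (h.dart_ne_symm j (j + 1)).symm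
  simp only [h1]
  rw [Finset.sum_add_distrib]
  have h2 : ∑ j, (2 - ang D (f (j + 1))) = ∑ j, (2 - ang D (f j)) :=
    Equiv.sum_comp (Equiv.addRight (1 : Fin k)) (fun j => 2 - ang D (f j))
  rw [h2, ← Finset.sum_add_distrib]
  refine Finset.sum_congr rfl fun j _ => ?_
  ring

/-- the set of points of a drawing -/
noncomputable def drawSet (D : Drawing G) : Set (ℝ × ℝ) :=
  Set.range D.pos ∪ ⋃ (d) (i) (_ : i + 1 < (D.chain d).length),
    segment ℝ ((D.chain d).getD i 0) ((D.chain d).getD (i + 1) 0)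

lemma polySet_subset {k : ℕ} [NeZero k] {f : Fin k → G.graph.Dart} (h : FaceCycle G k f) :
    polySet (sx (fun j => D.bends (f j))) (facePt D f) ⊆ drawSet D := by
  intro z hz
  unfold polySet at hz
  rw [Set.mem_iUnion] at hz
  obtain ⟨x, hx⟩ := hz
  rw [facePt_sx D h] at hx
  right
  simp only [Set.mem_iUnion]
  exact ⟨f x.1, x.2.val, by rw [length_eq]; have := blk_le D x; omega, hx⟩

lemma outer_hyp {k : ℕ} [NeZero k] {f : Fin k → G.graph.Dart} (h : FaceCycle G k f)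
    (j : Fin k) (hj : f j = G.outer) (ε : ℝ) (hε : 0 < ε) :
    ∃ t : ℝ, 0 < t ∧ t < ε ∧ ¬ Bornology.IsBounded (connectedComponentIn
      (polySet (sx (fun j => D.bends (f j))) (facePt D f))ᶜ
      (midpoint ℝ (facePt D f ⟨j, ⟨0, by omega⟩⟩)
        (facePt D f (sx (fun j => D.bends (f j)) ⟨j, ⟨0, by omega⟩⟩)) +
        t • leftN (facePt D f (sx (fun j => D.bends (f j)) ⟨j, ⟨0, by omega⟩⟩) -
          facePt D f ⟨j, ⟨0, by omega⟩⟩))) := by
  have h1 := D.external
  have h2 := Ioo_mem_nhdsGT hε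
  obtain ⟨t, ht1, ht2⟩ := (h1.and h2).exists
  refine ⟨t, ht2.1, ht2.2, fun hb => ht1 (hb.subset ?_)⟩
  rw [facePt_sx D h]
  have e1 : facePt D f ⟨j, ⟨0, by omega⟩⟩ = D.pos G.outer.fst := by
    unfold facePt
    rw [← hj, ← pt_zero]
  have e2 : pt D (f (⟨j, ⟨0, by omega⟩⟩ : Blk k (fun j => D.bends (f j))).1)
      ((⟨j, ⟨0, by omega⟩⟩ : Blk k (fun j => D.bends (f j))).2.val + 1) =
      (D.chain G.outer).getD 1 0 := by
    rw [← hj]
    rfl
  rw [e1, e2]
  exact connectedComponentIn_mono _ (Set.compl_subset_compl.2 (polySet_subset D h))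

end Pool.Agent.N371.UB
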